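import Pool.Agent.Lib_MP_55d5ef_i.IDef
import Pool.Agent.Lib_MP_55d5ef_b3.Att

/-!
# The combinatorial hypotheses `KH` in the space `B3.XN numR odR`

For arbitrary other records satisfying `B3.ROk`.
-/

namespace MP55B

open Fl49 PL55 MP55I

/-- `Bool` to `Fin 2`. -/
def bt : Bool → Fin 2
  | false => 0
  | true => 1

/-- `Fin 2` to `Bool`. -/
def tb : Fin 2 → Bool
  | 0 => false
  | 1 => true

theorem bt_tb (t : Fin 2) : bt (tb t) = t := by
  fin_cases t <;> rfl

theorem tb_bt (t : Bool) : tb (bt t) = t := by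
  cases t <;> rfl

theorem bt_inj {t t' : Bool} (h : bt t = bt t') : t = t' := by
  rw [← tb_bt t, h, tb_bt]

/-- The twelve records. -/
def rcB {R : Type} (t : Bool) (k : Fin 6) : R ⊕ (Fin 2 × Fin 6) := Sum.inr (bt t, k)

theorem nK1 : ∀ (t : Bool) (k : Fin 6) (v : Fin 5) (u : Bool) (k' : Fin 6) (w : Fin 5),
    nbT k v = some (u, k', w) →
    B3.numK (bt t) k v = B3.numK (bt (xor t u)) k' w ∧
      B3.od5 w = (B3.od5 v).map (pm v w) := by
  decide +kernel

theorem nK2 : ∀ (t : Bool) (k : Fin 6) (v : Fin 5), B3.numK (bt t) k v < 6 →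
    nbT k v = none := by
  decide +kernel

theorem nK3 : ∀ (t : Bool) (k : Fin 6) (v : Fin 5) (t' : Bool) (k' : Fin 6) (w : Fin 5),
    B3.numK (bt t) k v = B3.numK (bt t') k' w →
    (t' = t ∧ k' = k ∧ w = v) ∨
    nbT k v = some (xor t t', k', w) := by
  decide +kernel

theorem od5_mem : ∀ v l : Fin 5, l ∈ B3.od5 v ↔ l ≠ v := by
  decide +kernel

/-- **`KH` for `B3.XN numR odR`.** -/
theorem KH_B3 {R : Type} {numR : R → Fin 5 → ℕ} {odR : R → Fin 5 → List (Fin 5)}
    (hR : B3.ROk numR odR) :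
    KH (B3.lab5 (ρ := R ⊕ (Fin 2 × Fin 6))) (B3.numN numR) (B3.odN odR) Set.univ rcB where
  mem _ _ := Set.mem_univ _
  inj t k t' k' h := by
    have h1 := Sum.inr.inj h
    have h2 := congrArg Prod.fst h1
    have h3 := congrArg Prod.snd h1
    exact ⟨bt_inj h2, h3⟩
  hlab _ _ := rfl
  ods t k v l h := (od5_mem v l).mpr h
  odl t k v l h := (od5_mem v l).mp h
  hnum t k v u k' w h := nK1 t k v u k' w h
  sat := by
    rintro t k v j - w - hn
    rcases j with r | ⟨t', k'⟩
    · right; right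
      refine ⟨nK2 t k v ?_, fun t' k' h => by cases h⟩
      have h1 : B3.numK (bt t) k v = numR r w := hn
      have h2 := B3.numK_lt (bt t) k v
      rcases hR.num r w with h3 | h3
      · rw [h1]; exact h3
      · omega
    · have h1 : B3.numK (bt t) k v = B3.numK (bt (tb t')) k' w := by
        rw [bt_tb]; exact hn
      rcases nK3 t k v (tb t') k' w h1 with ⟨h2, h3, h4⟩ | h2
      · left
        refine ⟨?_, h4⟩
        rw [h3]
        show Sum.inr (t', k) = Sum.inr (bt t, k)
        rw [← h2, bt_tb]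
      · right; left
        refine ⟨xor t (tb t'), k', h2, ?_⟩
        show Sum.inr (t', k') = Sum.inr (bt (xor t (xor t (tb t'))), k')
        rw [show xor t (xor t (tb t')) = tb t' from by cases t <;> cases (tb t') <;> rfl, bt_tb]

end MP55B
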