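import Pool.Agent.Lib_MP_55d5ef_i.IPsi

/-!
The product neighbourhood is piecewise linear.
-/

open Filter Topology

namespace MP55I

open Fl49 PL55

/-- The source space. -/
abbrev E2 : Type := (Fin 2 → ℝ) × (Fin 2 → ℝ)

/-- Coordinate of the torus. -/
noncomputable def xL (i : Fin 2) : E2 →L[ℝ] ℝ :=
  (ContinuousLinearMap.proj (R := ℝ) (φ := fun _ : Fin 2 => ℝ) i).comp
    (ContinuousLinearMap.fst ℝ (Fin 2 → ℝ) (Fin 2 → ℝ))

/-- Coordinate of the square. -/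
noncomputable def pL (i : Fin 2) : E2 →L[ℝ] ℝ :=
  (ContinuousLinearMap.proj (R := ℝ) (φ := fun _ : Fin 2 => ℝ) i).comp
    (ContinuousLinearMap.snd ℝ (Fin 2 → ℝ) (Fin 2 → ℝ))

theorem xL_apply (i : Fin 2) (z : E2) : xL i z = z.1 i := rfl

theorem pL_apply (i : Fin 2) (z : E2) : pL i z = z.2 i := rfl

/-- The norm on the four triangles. -/
noncomputable def rL : Fin 4 → (E2 →L[ℝ] ℝ)
  | 0 => pL 0
  | 1 => pL 1
  | 2 => - pL 0
  | 3 => - pL 1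

/-- The other coordinate. -/
noncomputable def qL : Fin 4 → (E2 →L[ℝ] ℝ)
  | 0 => pL 1
  | 1 => pL 0
  | 2 => pL 1
  | 3 => pL 0

/-- Norm times position on the four triangles. -/
noncomputable def wL : Fin 4 → (E2 →L[ℝ] ℝ)
  | 0 => (1 / 8 : ℝ) • (pL 0 + pL 1)
  | 1 => (1 / 8 : ℝ) • ((3 : ℝ) • pL 1 - pL 0)
  | 2 => (1 / 8 : ℝ) • ((-5 : ℝ) • pL 0 - pL 1)
  | 3 => (1 / 8 : ℝ) • ((-7 : ℝ) • pL 1 + pL 0)

theorem rL0 (z : E2) : rL 0 z = z.2 0 := rfl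
theorem rL1 (z : E2) : rL 1 z = z.2 1 := rfl
theorem rL2 (z : E2) : rL 2 z = - z.2 0 := rfl
theorem rL3 (z : E2) : rL 3 z = - z.2 1 := rfl
theorem qL0 (z : E2) : qL 0 z = z.2 1 := rfl
theorem qL1 (z : E2) : qL 1 z = z.2 0 := rfl
theorem qL2 (z : E2) : qL 2 z = z.2 1 := rfl
theorem qL3 (z : E2) : qL 3 z = z.2 0 := rfl
theorem wL0 (z : E2) : wL 0 z = 1 / 8 * (z.2 0 + z.2 1) := rfl
theorem wL1 (z : E2) : wL 1 z = 1 / 8 * (3 * z.2 1 - z.2 0) := rfl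
theorem wL2 (z : E2) : wL 2 z = 1 / 8 * (-5 * z.2 0 - z.2 1) := rfl
theorem wL3 (z : E2) : wL 3 z = 1 / 8 * (-7 * z.2 1 + z.2 0) := rfl

/-- The side of a point. -/
def Side (s : Fin 4) (z : E2) : Prop := 0 ≤ rL s z + qL s z ∧ 0 ≤ rL s z - qL s z

theorem side_exists (z : E2) : ∃ s, Side s z := by
  unfold Side
  rcases le_total (z.2 1) (z.2 0) with h | h
  · rcases le_total 0 (z.2 0 + z.2 1) with g | g
    · exact ⟨0, by rw [rL0, qL0]; constructor <;> linarith⟩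
    · exact ⟨3, by rw [rL3, qL3]; constructor <;> linarith⟩
  · rcases le_total 0 (z.2 0 + z.2 1) with g | g
    · exact ⟨1, by rw [rL1, qL1]; constructor <;> linarith⟩
    · exact ⟨2, by rw [rL2, qL2]; constructor <;> linarith⟩

theorem side_bounds {s : Fin 4} {z : E2} (h : Side s z) : 0 ≤ wL s z ∧ wL s z ≤ rL s z := by
  unfold Side at h
  obtain ⟨h1, h2⟩ := h
  fin_cases s
  · change 0 ≤ z.2 0 + z.2 1 at h1
    change 0 ≤ z.2 0 - z.2 1 at h2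
    refine ⟨?_, ?_⟩
    · show 0 ≤ 1 / 8 * (z.2 0 + z.2 1); linarith
    · show 1 / 8 * (z.2 0 + z.2 1) ≤ z.2 0; linarith
  · change 0 ≤ z.2 1 + z.2 0 at h1
    change 0 ≤ z.2 1 - z.2 0 at h2
    refine ⟨?_, ?_⟩
    · show 0 ≤ 1 / 8 * (3 * z.2 1 - z.2 0); linarith
    · show 1 / 8 * (3 * z.2 1 - z.2 0) ≤ z.2 1; linarith
  · change 0 ≤ - z.2 0 + z.2 1 at h1
    change 0 ≤ - z.2 0 - z.2 1 at h2
    refine ⟨?_, ?_⟩
    · show 0 ≤ 1 / 8 * (-5 * z.2 0 - z.2 1); linarith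
    · show 1 / 8 * (-5 * z.2 0 - z.2 1) ≤ - z.2 0; linarith
  · change 0 ≤ - z.2 1 + z.2 0 at h1
    change 0 ≤ - z.2 1 - z.2 0 at h2
    refine ⟨?_, ?_⟩
    · show 0 ≤ 1 / 8 * (-7 * z.2 1 + z.2 0); linarith
    · show 1 / 8 * (-7 * z.2 1 + z.2 0) ≤ - z.2 1; linarith

theorem Pq_side {s : Fin 4} {z : E2} (h : Side s z) : Pq (rL s z) (wL s z) = z.2 := by
  unfold Side at h
  obtain ⟨h1, h2⟩ := h
  fin_cases s
  · change 0 ≤ z.2 0 + z.2 1 at h1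
    change 0 ≤ z.2 0 - z.2 1 at h2
    show Pq (z.2 0) (1 / 8 * (z.2 0 + z.2 1)) = z.2
    unfold Pq
    split_ifs <;> refine ext2 ?_ ?_ <;> simp only [Matrix.cons_val_zero, Matrix.cons_val_one,
      Matrix.cons_val_fin_one] <;> linarith
  · change 0 ≤ z.2 1 + z.2 0 at h1
    change 0 ≤ z.2 1 - z.2 0 at h2
    show Pq (z.2 1) (1 / 8 * (3 * z.2 1 - z.2 0)) = z.2
    unfold Pq
    split_ifs <;> refine ext2 ?_ ?_ <;> simp only [Matrix.cons_val_zero, Matrix.cons_val_one,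
      Matrix.cons_val_fin_one] <;> linarith
  · change 0 ≤ - z.2 0 + z.2 1 at h1
    change 0 ≤ - z.2 0 - z.2 1 at h2
    show Pq (- z.2 0) (1 / 8 * (-5 * z.2 0 - z.2 1)) = z.2
    unfold Pq
    split_ifs <;> refine ext2 ?_ ?_ <;> simp only [Matrix.cons_val_zero, Matrix.cons_val_one,
      Matrix.cons_val_fin_one] <;> linarith
  · change 0 ≤ - z.2 1 + z.2 0 at h1
    change 0 ≤ - z.2 1 - z.2 0 at h2
    show Pq (- z.2 1) (1 / 8 * (-7 * z.2 1 + z.2 0)) = z.2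
    unfold Pq
    split_ifs <;> refine ext2 ?_ ?_ <;> simp only [Matrix.cons_val_zero, Matrix.cons_val_one,
      Matrix.cons_val_fin_one] <;> linarith

theorem rL_sq {s : Fin 4} {z : E2} (h : z.2 ∈ PL55.sq) : rL s z ≤ 1 := by
  have h0 := abs_le.mp (h 0)
  have h1 := abs_le.mp (h 1)
  fin_cases s
  · exact h0.2
  · exact h1.2
  · show - z.2 0 ≤ 1; linarith
  · show - z.2 1 ≤ 1; linarith

/-- Only zero has norm and position zero. -/
theorem rw_zero {s : Fin 4} {z : E2} (h1 : rL s z = 0) (h2 : wL s z = 0) : z.2 = 0 := by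
  fin_cases s
  · change z.2 0 = 0 at h1
    change 1 / 8 * (z.2 0 + z.2 1) = 0 at h2
    exact ext2 (by show z.2 0 = 0; linarith) (by show z.2 1 = 0; linarith)
  · change z.2 1 = 0 at h1
    change 1 / 8 * (3 * z.2 1 - z.2 0) = 0 at h2
    exact ext2 (by show z.2 0 = 0; linarith) (by show z.2 1 = 0; linarith)
  · change - z.2 0 = 0 at h1
    change 1 / 8 * (-5 * z.2 0 - z.2 1) = 0 at h2
    exact ext2 (by show z.2 0 = 0; linarith) (by show z.2 1 = 0; linarith)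
  · change - z.2 1 = 0 at h1
    change 1 / 8 * (-7 * z.2 1 + z.2 0) = 0 at h2
    exact ext2 (by show z.2 0 = 0; linarith) (by show z.2 1 = 0; linarith)

/-- Linear version of `bc`. -/
noncomputable def bcL (s0 s1 s2 s3 : E2 →L[ℝ] ℝ) : Fin 5 → (E2 →L[ℝ] ℝ) :=
  ![s0, s1 - s0, s2 - s1, s3 - s2, - s3]

/-- Linear version of `cut`. -/
noncomputable def cutL (k : Fin 6) (a b c d : E2 →L[ℝ] ℝ) : Fin 5 → (E2 →L[ℝ] ℝ) :=
  match k with
  | 0 => bcL a b c d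
  | 1 => bcL a c b d
  | 2 => bcL a c d b
  | 3 => bcL c a b d
  | 4 => bcL c a d b
  | 5 => bcL c d a b

theorem bcL_apply (s0 s1 s2 s3 : E2 →L[ℝ] ℝ) (t0 t1 t2 t3 : ℝ) (z : E2) (v : Fin 5) :
    bcL s0 s1 s2 s3 v z + bc t0 t1 t2 t3 v = bc (s0 z + t0) (s1 z + t1) (s2 z + t2) (s3 z + t3) v := by
  fin_cases v
  · rfl
  · show (s1 z - s0 z) + (t1 - t0) = (s1 z + t1) - (s0 z + t0); ring
  · show (s2 z - s1 z) + (t2 - t1) = (s2 z + t2) - (s1 z + t1); ring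
  · show (s3 z - s2 z) + (t3 - t2) = (s3 z + t3) - (s2 z + t2); ring
  · show (- s3 z) + (1 - t3) = 1 - (s3 z + t3); ring

theorem cutL_apply (k : Fin 6) (a b c d : E2 →L[ℝ] ℝ) (a' b' c' d' : ℝ) (z : E2) (v : Fin 5) :
    cutL k a b c d v z + cut k a' b' c' d' v = cut k (a z + a') (b z + b') (c z + c') (d z + d') v := by
  fin_cases k <;> exact bcL_apply _ _ _ _ _ _ _ _ z v

theorem bcL_sum (s0 s1 s2 s3 : E2 →L[ℝ] ℝ) (z : E2) : ∑ v, bcL s0 s1 s2 s3 v z = 0 := by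
  rw [Fin.sum_univ_five]
  show s0 z + (s1 z - s0 z) + (s2 z - s1 z) + (s3 z - s2 z) + (- s3 z) = 0
  ring

theorem cutL_sum (k : Fin 6) (a b c d : E2 →L[ℝ] ℝ) (z : E2) : ∑ v, cutL k a b c d v z = 0 := by
  fin_cases k <;> exact bcL_sum _ _ _ _ z

theorem bcL_zero {s0 s1 s2 s3 : E2 →L[ℝ] ℝ} {z : E2} (h : ∀ v, bcL s0 s1 s2 s3 v z = 0) :
    s0 z = 0 ∧ s1 z = 0 ∧ s2 z = 0 ∧ s3 z = 0 := by
  have h0 : s0 z = 0 := h 0
  have h1 : s1 z - s0 z = 0 := h 1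
  have h2 : s2 z - s1 z = 0 := h 2
  have h3 : s3 z - s2 z = 0 := h 3
  refine ⟨h0, ?_, ?_, ?_⟩ <;> linarith

theorem cutL_zero {k : Fin 6} {a b c d : E2 →L[ℝ] ℝ} {z : E2}
    (h : ∀ v, cutL k a b c d v z = 0) : a z = 0 ∧ b z = 0 ∧ c z = 0 ∧ d z = 0 := by
  fin_cases k <;> obtain ⟨h0, h1, h2, h3⟩ := bcL_zero h
  · exact ⟨h0, h1, h2, h3⟩
  · exact ⟨h0, h2, h1, h3⟩
  · exact ⟨h0, h3, h1, h2⟩
  · exact ⟨h1, h2, h0, h3⟩
  · exact ⟨h1, h3, h0, h2⟩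
  · exact ⟨h2, h3, h0, h1⟩

/-- The column cuts, linear parts. -/
noncomputable def cL (t : Bool) : E2 →L[ℝ] ℝ := if t = true then - xL 1 else - xL 0

/-- The column cuts, linear parts. -/
noncomputable def dL (t : Bool) : E2 →L[ℝ] ℝ := if t = true then - xL 0 else - xL 1

/-- Constants of the column cuts. -/
def cK (t : Bool) (m : Fin 2 → ℝ) : ℝ := if t = true then 1 + m 1 else 1 + m 0

/-- Constants of the column cuts. -/
def dK (t : Bool) (m : Fin 2 → ℝ) : ℝ := if t = true then 1 + m 0 else 1 + m 1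

theorem XY_cd (t : Bool) (m : Fin 2 → ℝ) (z : E2) :
    XY t (cL t z + cK t m) (dL t z + dK t m) = fun i => z.1 i - m i := by
  cases t
  · refine ext2 ?_ ?_
    · show 1 - (- z.1 0 + (1 + m 0)) = z.1 0 - m 0; ring
    · show 1 - (- z.1 1 + (1 + m 1)) = z.1 1 - m 1; ring
  · refine ext2 ?_ ?_
    · show 1 - (- z.1 0 + (1 + m 0)) = z.1 0 - m 0; ring
    · show 1 - (- z.1 1 + (1 + m 1)) = z.1 1 - m 1; ring

theorem cd_zero {t : Bool} {z : E2} (h1 : cL t z = 0) (h2 : dL t z = 0) : z.1 = 0 := by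
  cases t
  · change - z.1 0 = 0 at h1
    change - z.1 1 = 0 at h2
    exact ext2 (neg_eq_zero.mp h1) (neg_eq_zero.mp h2)
  · change - z.1 1 = 0 at h1
    change - z.1 0 = 0 at h2
    exact ext2 (neg_eq_zero.mp h2) (neg_eq_zero.mp h1)

/-- Index set of the pieces: cell, side, triangle, word. -/
abbrev Pc : Type := (Fin 2 → Bool) × Fin 4 × Bool × Fin 6

/-- The corner of the cell. -/
noncomputable def cell (x : Fin 2 → ℝ) (e : Fin 2 → Bool) (i : Fin 2) : ℤ :=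
  ⌊x i⌋ - (if e i = true then 1 else 0)

/-- Linear part on a piece. -/
noncomputable def AL (q : Pc) : E2 →L[ℝ] (Fin 5 → ℝ) :=
  ContinuousLinearMap.pi (cutL q.2.2.2 ((-1 / 2 : ℝ) • rL q.2.1) ((-1 / 2 : ℝ) • wL q.2.1)
    (cL q.2.2.1) (dL q.2.2.1))

/-- Constant on a piece. -/
noncomputable def bL (m : Fin 2 → ℝ) (q : Pc) : Fin 5 → ℝ :=
  cut q.2.2.2 1 1 (cK q.2.2.1 m) (dK q.2.2.1 m)

theorem Ab_apply (m : Fin 2 → ℝ) (q : Pc) (z : E2) : AL q z + bL m q =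
    cut q.2.2.2 (1 - rL q.2.1 z / 2) (1 - wL q.2.1 z / 2) (cL q.2.2.1 z + cK q.2.2.1 m)
      (dL q.2.2.1 z + dK q.2.2.1 m) := by
  funext v
  have := cutL_apply q.2.2.2 ((-1 / 2 : ℝ) • rL q.2.1) ((-1 / 2 : ℝ) • wL q.2.1)
    (cL q.2.2.1) (dL q.2.2.1) 1 1 (cK q.2.2.1 m) (dK q.2.2.1 m) z v
  have e1 : ((-1 / 2 : ℝ) • rL q.2.1) z + 1 = 1 - rL q.2.1 z / 2 := by
    rw [ContinuousLinearMap.smul_apply, smul_eq_mul]; ring
  have e2 : ((-1 / 2 : ℝ) • wL q.2.1) z + 1 = 1 - wL q.2.1 z / 2 := by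
    rw [ContinuousLinearMap.smul_apply, smul_eq_mul]; ring
  rw [e1, e2] at this
  exact this

/-- The pieces. -/
def QL (m : Fin 2 → ℝ) (q : Pc) : Set E2 :=
  {z | (∀ v, 0 ≤ (AL q z + bL m q) v) ∧ Side q.2.1 z}

theorem QL_poly (m : Fin 2 → ℝ) (q : Pc) : HPoly (QL m q) := by
  have h1 : HPoly {z : E2 | ∀ v, 0 ≤ (AL q z + bL m q) v} :=
    ⟨5, fun v => (ContinuousLinearMap.proj (R := ℝ) (φ := fun _ : Fin 5 => ℝ) v).comp (AL q),
      bL m q, rfl⟩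
  have h2 : HPoly {z : E2 | 0 ≤ (rL q.2.1 + qL q.2.1) z + 0} := HPoly.halfspace _ _
  have h3 : HPoly {z : E2 | 0 ≤ (rL q.2.1 - qL q.2.1) z + 0} := HPoly.halfspace _ _
  have e : QL m q = {z : E2 | ∀ v, 0 ≤ (AL q z + bL m q) v} ∩
      ({z : E2 | 0 ≤ (rL q.2.1 + qL q.2.1) z + 0} ∩
       {z : E2 | 0 ≤ (rL q.2.1 - qL q.2.1) z + 0}) := by
    ext z
    simp only [QL, Side, Set.mem_inter_iff, Set.mem_setOf_eq, add_zero,
      ContinuousLinearMap.add_apply, ContinuousLinearMap.sub_apply]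
  rw [e]
  exact h1.inter (h2.inter h3)

section

variable {ρ : Type} {lab : ρ → Finset (Fin 5)} {num : ρ → Fin 5 → ℕ}
  {od : ρ → Fin 5 → List (Fin 5)} {S : Set ρ} {rc : Bool → Fin 6 → ρ}

theorem KH.iota0_piece (h : KH lab num od S rc) (m : Fin 2 → ℤ) (q : Pc) {z : E2}
    (hz : z ∈ QL (fun i => (m i : ℝ)) q) :
    ∃ hx : AL q z + bL (fun i => (m i : ℝ)) q ∈ Dl (lab (rc q.2.2.1 q.2.2.2)),
      h.iota0 z = pt lab num od (rc q.2.2.1 q.2.2.2) (h.mem _ _)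
        (AL q z + bL (fun i => (m i : ℝ)) q) hx := by
  obtain ⟨e, s, t, k⟩ := q
  obtain ⟨h1, h2⟩ := hz
  simp only at h2 ⊢
  have h3 := Ab_apply (fun i => (m i : ℝ)) (e, s, t, k) z
  simp only at h3
  have hOK : OK k (1 - rL s z / 2) (1 - wL s z / 2) (cL t z + cK t (fun i => (m i : ℝ)))
      (dL t z + dK t (fun i => (m i : ℝ))) := by
    intro v
    rw [← h3]
    exact h1 v
  have hx : AL (e, s, t, k) z + bL (fun i => (m i : ℝ)) (e, s, t, k) ∈ Dl (lab (rc t k)) := by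
    rw [h3]
    exact h.mem_Dl (cut_mem hOK)
  refine ⟨hx, ?_⟩
  rw [h.pt_iota t k hx, h3]
  obtain ⟨c1, c2, c3, c4⟩ := c_cut k (1 - rL s z / 2) (1 - wL s z / 2)
    (cL t z + cK t (fun i => (m i : ℝ))) (dL t z + dK t (fun i => (m i : ℝ)))
  rw [c1, c2, c3, c4, XY_cd]
  have e1 : 2 * (1 - (1 - rL s z / 2)) = rL s z := by ring
  have e2 : 2 * (1 - (1 - wL s z / 2)) = wL s z := by ring
  rw [e1, e2, Pq_side h2]
  refine h.iota0_eq_of ?_ z.2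
  refine fr_eq_iff.mpr ⟨fun i => - m i, fun i => ?_⟩
  push_cast
  ring

/-- Every point over the cell is in a piece. -/
theorem exists_piece (m : Fin 2 → ℝ) (e : Fin 2 → Bool) {z : E2}
    (hz : ∀ i, m i ≤ z.1 i ∧ z.1 i ≤ m i + 1) (hs : z.2 ∈ PL55.sq) :
    ∃ (s : Fin 4) (t : Bool) (k : Fin 6), z ∈ QL m (e, s, t, k) := by
  obtain ⟨s, hs2⟩ := side_exists z
  obtain ⟨b1, b2⟩ := side_bounds hs2
  have b3 := rL_sq (s := s) hs
  obtain ⟨x1, x2⟩ := hz 0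
  obtain ⟨y1, y2⟩ := hz 1
  have key : ∃ t, 0 ≤ cL t z + cK t m ∧ cL t z + cK t m ≤ dL t z + dK t m ∧
      dL t z + dK t m ≤ 1 := by
    rcases le_total (z.1 0 - m 0) (z.1 1 - m 1) with g | g
    · refine ⟨true, ?_, ?_, ?_⟩
      · show 0 ≤ - z.1 1 + (1 + m 1); linarith
      · show - z.1 1 + (1 + m 1) ≤ - z.1 0 + (1 + m 0); linarith
      · show - z.1 0 + (1 + m 0) ≤ 1; linarith
    · refine ⟨false, ?_, ?_, ?_⟩
      · show 0 ≤ - z.1 0 + (1 + m 0); linarith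
      · show - z.1 0 + (1 + m 0) ≤ - z.1 1 + (1 + m 1); linarith
      · show - z.1 1 + (1 + m 1) ≤ 1; linarith
  obtain ⟨t, g1, g2, g3⟩ := key
  have hk : ∀ {a b c d : ℝ}, 0 ≤ a → a ≤ b → b ≤ 1 → 0 ≤ c → c ≤ d → d ≤ 1 →
      ∃ k, OK k a b c d := by
    intro a b c d h0 h1 h2 h3 h4 h5
    rcases le_total b c with e1 | e1
    · exact ⟨0, OK0.mpr ⟨h0, h1, e1, h4, h5⟩⟩
    · rcases le_total a c with e2 | e2
      · rcases le_total b d with e3 | e3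
        · exact ⟨1, OK1.mpr ⟨h0, e2, e1, e3, h5⟩⟩
        · exact ⟨2, OK2.mpr ⟨h0, e2, h4, e3, h2⟩⟩
      · rcases le_total b d with e3 | e3
        · exact ⟨3, OK3.mpr ⟨h3, e2, h1, e3, h5⟩⟩
        · rcases le_total a d with e4 | e4
          · exact ⟨4, OK4.mpr ⟨h3, e2, e4, e3, h2⟩⟩
          · exact ⟨5, OK5.mpr ⟨h3, h4, e4, h1, h2⟩⟩
  obtain ⟨k, hk⟩ := hk (a := 1 - rL s z / 2) (b := 1 - wL s z / 2) (by linarith) (by linarith)
    (by linarith) g1 g2 g3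
  refine ⟨s, t, k, ?_, hs2⟩
  intro v
  rw [Ab_apply]
  exact hk v

/-- The product neighbourhood is piecewise linear. -/
theorem KH.i2 (h : KH lab num od S rc) : ∀ x0, IsPL
    (fun _ : Unit => {z : (Fin 2 → ℝ) × (Fin 2 → ℝ) | z.2 ∈ PL55.sq})
    (fun _ => ⊤) (fun (_ : Unit) (z : (Fin 2 → ℝ) × (Fin 2 → ℝ)) => z)
    (dom lab num od S ∅) (fun i => dirs (lab i)) (chart lab num od S x0) h.iota0 := by
  classical
  intro x0 _ z0 _
  let φ : Fin (Fintype.card Pc) ≃ Pc := (Fintype.equivFin Pc).symm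
  refine ⟨Fintype.card Pc, fun n => QL (fun i => ((cell z0.1 (φ n).1 i : ℤ) : ℝ)) (φ n),
    fun n => ⟨rc (φ n).2.2.1 (φ n).2.2.2, h.mem _ _⟩, fun n => AL (φ n),
    fun n => bL (fun i => ((cell z0.1 (φ n).1 i : ℤ) : ℝ)) (φ n), fun n => QL_poly _ _, ?_, ?_, ?_⟩
  · rintro n z ⟨hz, _⟩
    obtain ⟨hx, e⟩ := h.iota0_piece (cell z0.1 (φ n).1) (φ n) hz
    refine ⟨⟨hx, fun h => h⟩, ?_⟩
    rw [e]
    unfold chart
    rw [dif_pos hx]
  · intro n v _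
    refine ⟨⟨?_, ?_⟩, ?_⟩
    · intro u hu
      exact absurd (by rw [h.hlab]; exact Finset.mem_univ u) hu
    · simp only [h.hlab]
      exact cutL_sum _ _ _ _ _ v
    · intro hv
      have h1 : ∀ u, cutL (φ n).2.2.2 ((-1 / 2 : ℝ) • rL (φ n).2.1) ((-1 / 2 : ℝ) • wL (φ n).2.1)
          (cL (φ n).2.2.1) (dL (φ n).2.2.1) u v = 0 := fun u => congrFun hv u
      obtain ⟨a1, a2, a3, a4⟩ := cutL_zero h1
      rw [ContinuousLinearMap.smul_apply, smul_eq_mul] at a1 a2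
      have b1 : rL (φ n).2.1 v = 0 := by linarith
      have b2 : wL (φ n).2.1 v = 0 := by linarith
      exact Prod.ext (cd_zero a3 a4) (rw_zero b1 b2)
  · -- cover
    have hc : ∀ i : Fin 2, ∀ᶠ z : E2 in 𝓝 z0, (⌊z0.1 i⌋ : ℝ) - 1 < z.1 i ∧
        z.1 i < (⌊z0.1 i⌋ : ℝ) + 1 := by
      intro i
      have hcont : Continuous fun z : E2 => z.1 i := (continuous_apply i).comp continuous_fst
      have h1 : (⌊z0.1 i⌋ : ℝ) - 1 < z0.1 i := by linarith [Int.floor_le (z0.1 i)]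
      have h2 : z0.1 i < (⌊z0.1 i⌋ : ℝ) + 1 := Int.lt_floor_add_one _
      exact (hcont.continuousAt.eventually (lt_mem_nhds h1)).and
        (hcont.continuousAt.eventually (gt_mem_nhds h2))
    have hc2 : ∀ᶠ z : E2 in 𝓝 z0, ∀ i, (⌊z0.1 i⌋ : ℝ) - 1 < z.1 i ∧
        z.1 i < (⌊z0.1 i⌋ : ℝ) + 1 := eventually_all.mpr hc
    rw [eventually_nhdsWithin_iff]
    filter_upwards [hc2] with z hz hsq
    let e : Fin 2 → Bool := fun i => decide (z.1 i < (⌊z0.1 i⌋ : ℝ))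
    have hm : ∀ i, ((cell z0.1 e i : ℤ) : ℝ) ≤ z.1 i ∧ z.1 i ≤ ((cell z0.1 e i : ℤ) : ℝ) + 1 := by
      intro i
      obtain ⟨g1, g2⟩ := hz i
      unfold cell
      by_cases hi : z.1 i < (⌊z0.1 i⌋ : ℝ)
      · have : e i = true := decide_eq_true hi
        rw [if_pos this]
        push_cast
        exact ⟨by linarith, by linarith⟩
      · have : ¬ e i = true := by simp [e, hi]
        rw [if_neg this]
        push_cast
        exact ⟨by linarith, by linarith⟩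
    obtain ⟨s, t, k, hq⟩ := exists_piece (fun i => ((cell z0.1 e i : ℤ) : ℝ)) e hm hsq
    refine ⟨φ.symm (e, s, t, k), ?_⟩
    simp only [Equiv.apply_symm_apply]
    exact hq

end

end MP55I
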