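import Pool.Agent.Lib_MP_55d5ef_top.TabN
import Pool.Agent.Lib_MP_55d5ef_top.TabD
import Pool.Agent.Lib_MP_55d5ef_b3.Att
import Pool.Agent.Lib_MP_55d5ef_fl.Ich

/-!
# The spaces of the step B3 and the official tables

`numR0`, `odR0` : the 492 common records of `N504` and `Cp492`, in the form required by `B3.ROk`;
`isoN`, `isoD` : the isomorphisms of `B3.XN numR0 odR0` and `B3.XC numR0 odR0` with the official
tables `numN odN` and `numD odD`.
-/

set_option linter.unusedSectionVars false

namespace MP55B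

open Fl49 PL55 H4T H4C

/-- An isomorphism from a record type onto a table, with renamed labels, renumbered facets and
reordered orderings. -/
theorem isoT {ρ : Type} {m : ℕ} {numB : ρ → Fin 5 → ℕ} {odB : ρ → Fin 5 → List (Fin 5)}
    {num' : Fin m → Fin 5 → ℕ} {od' : Fin m → Fin 5 → List (Fin 5)}
    (φ : ρ → Fin m) (ψ : Fin m → ρ) (f g : ρ → Fin 5 → Fin 5)
    (h1 : ∀ i, ψ (φ i) = i) (h2 : ∀ j, φ (ψ j) = j) (h3 : ∀ i v, g i (f i v) = v)
    (h4 : ∀ i v, f i (g i v) = v) (ren ren' : ℕ → ℕ) (σ : ℕ → List ℕ)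
    (h5 : ∀ i v, num' (φ i) (f i v) = ren (numB i v))
    (h6 : ∀ i v, numB i v = ren' (num' (φ i) (f i v)))
    (h7 : ∀ i v, od' (φ i) (f i v) =
      ((σ (numB i v)).map (fun k => (odB i v).getD k default)).map (f i))
    (h8 : ∀ i v, (odB i v).length = (σ (numB i v)).length)
    (h9 : ∀ i v, ∀ k ∈ σ (numB i v), k < (σ (numB i v)).length)
    (h10 : ∀ i v, ∀ k < (σ (numB i v)).length, k ∈ σ (numB i v)) :
    Iso (B3.lab5 (ρ := ρ)) numB odB (labU : Fin m → Finset (Fin 5)) num' od' φ ψ f
      (fun j => g (ψ j)) Set.univ Set.univ where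
  mem _ _ := Set.mem_univ _
  mem' _ _ := Set.mem_univ _
  inv i _ := h1 i
  inv' j _ := h2 j
  fm _ _ _ _ := Finset.mem_univ _
  gm _ _ _ _ := Finset.mem_univ _
  gf i _ v _ := by
    show g (ψ (φ i)) (f i v) = v
    rw [h1, h3]
  fg j _ w _ := h4 _ _
  nf i _ v _ j _ w _ := by
    constructor
    · intro h
      rw [h6 i v, h6 j w, h]
    · intro h
      rw [h5 i v, h5 j w, h]
  og i _ v _ j _ w _ hn x y := by
    have key : ∀ (i : ρ) (v : Fin 5) (x : Fin 5 → ℝ),
        (od' (φ i) (f i v)).map (fun u => x (g (ψ (φ i)) u)) =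
          ((σ (numB i v)).map (fun k => (odB i v).getD k default)).map x := by
      intro i v x
      rw [h7, List.map_map]
      refine List.map_congr_left (fun u _ => ?_)
      show x (g (ψ (φ i)) (f i u)) = x u
      rw [h1, h3]
    rw [key i v x, key j w y, hn]
    refine map_pm (σ (numB j w)) (h9 j w) (h10 j w) ?_ ?_ x y
    · rw [h8 i v, hn]
    · exact h8 j w
  ol _ _ _ _ _ _ := Finset.mem_univ _
  ol' _ _ _ _ _ _ := Finset.mem_univ _

/-! ### The common records -/

/-- Record `r` of `N504`. -/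
def inN (r : Fin 492) : Fin 504 := Fin.castLE (by decide) r

/-- Facet numbers: the six boundary facets have the numbers `0, .., 5`. -/
def bnum (n : ℕ) : ℕ :=
  if n = 2415 then 0 else if n = 2452 then 1 else if n = 2447 then 2 else
  if n = 2455 then 3 else if n = 2441 then 4 else if n = 2435 then 5 else 100 + n

/-- The orderings of the six boundary facets: images of the vertices `1, 2, 3, 4` of the solid
side. -/
def bod (n : ℕ) : Option (List (Fin 5)) :=
  if n = 2415 then some [3, 2, 1, 4] else if n = 2452 then some [0, 3, 4, 1] else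
  if n = 2447 then some [0, 4, 3, 1] else if n = 2455 then some [2, 4, 3, 1] else
  if n = 2441 then some [3, 0, 4, 2] else if n = 2435 then some [3, 1, 4, 2] else none

/-- Facet numbers of the 492 common records. -/
def numR0 (r : Fin 492) (v : Fin 5) : ℕ := bnum (numN (inN r) v)

/-- Orderings of the 492 common records. -/
def odR0 (r : Fin 492) (v : Fin 5) : List (Fin 5) :=
  (bod (numN (inN r) v)).getD (odN (inN r) v)

theorem bnum_cases (n : ℕ) : bnum n < 6 ∨ 100 ≤ bnum n := by
  unfold bnum
  split_ifs <;> omega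

theorem odR0_perm : ∀ (r : Fin 492) (v : Fin 5), (odR0 r v).Perm (B3.od5 v) := by
  decide +kernel

/-- The hypotheses of the step B3. -/
theorem rok0 : B3.ROk numR0 odR0 := ⟨fun r v => bnum_cases _, odR0_perm⟩

end MP55B
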