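import Pool.Agent.Lib_MP_55d5ef_i.BIsoN

/-!
# `B3.XC numR0 odR0` is the official `Cp492`
-/

set_option linter.unusedSectionVars false

namespace MP55B

open Fl49 PL55 H4T H4C

/-- The ids of the last common records. -/
def kpL : List ℕ := [485, 486, 487, 488, 490, 492, 494, 496]

/-- The id in `Cp492` of the common record `r`. -/
def kpn (r : ℕ) : ℕ := if r < 484 then r else kpL.getD (r - 484) 0

/-- The ids of the cone records. -/
def stL (t : Fin 2) (b : Fin 3) : Fin 498 := (![![484, 495, 493], ![497, 491, 489]] :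
  Fin 2 → Fin 3 → Fin 498) t b

theorem kpn_lt : ∀ r : Fin 492, kpn r < 498 := by
  decide +kernel

/-- The bijection of the records. -/
def phiD : Fin 492 ⊕ (Fin 2 × Fin 3) → Fin 498 :=
  Sum.elim (fun r => ⟨kpn r.1, kpn_lt r⟩) (fun p => stL p.1 p.2)

/-- The records with the ids `484, .., 497`. -/
def psL : List (Fin 492 ⊕ (Fin 2 × Fin 3)) :=
  [Sum.inr (0, 0), Sum.inl 484, Sum.inl 485, Sum.inl 486, Sum.inl 487, Sum.inr (1, 2),
    Sum.inl 488, Sum.inr (1, 1), Sum.inl 489, Sum.inr (0, 2), Sum.inl 490, Sum.inr (0, 1),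
    Sum.inl 491, Sum.inr (1, 0)]

/-- The inverse. -/
def psiD (j : Fin 498) : Fin 492 ⊕ (Fin 2 × Fin 3) :=
  if h : j.1 < 484 then Sum.inl ⟨j.1, by omega⟩ else psL.getD (j.1 - 484) (Sum.inl 0)

theorem psiD_phiD1 : ∀ r : Fin 492, psiD (phiD (Sum.inl r)) = Sum.inl r := by
  decide +kernel

theorem psiD_phiD2 : ∀ p : Fin 2 × Fin 3, psiD (phiD (Sum.inr p)) = Sum.inr p := by
  decide +kernel

theorem psiD_phiD (i : Fin 492 ⊕ (Fin 2 × Fin 3)) : psiD (phiD i) = i := by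
  rcases i with r | p
  · exact psiD_phiD1 r
  · exact psiD_phiD2 p

theorem phiD_psiD : ∀ j : Fin 498, phiD (psiD j) = j := by
  decide +kernel

/-- The labels of the cone records: images of `0, .., 4`. -/
def stF (t : Fin 2) (b : Fin 3) : Fin 5 → Fin 5 :=
  (![![![0, 3, 2, 1, 4], ![0, 1, 3, 4, 2], ![0, 1, 4, 3, 2]],
     ![![0, 2, 4, 3, 1], ![0, 3, 1, 4, 2], ![0, 3, 1, 4, 2]]] :
    Fin 2 → Fin 3 → Fin 5 → Fin 5) t b

/-- The inverses. -/
def stG (t : Fin 2) (b : Fin 3) : Fin 5 → Fin 5 :=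
  (![![![0, 3, 2, 1, 4], ![0, 1, 4, 2, 3], ![0, 1, 4, 3, 2]],
     ![![0, 4, 1, 3, 2], ![0, 2, 4, 1, 3], ![0, 2, 4, 1, 3]]] :
    Fin 2 → Fin 3 → Fin 5 → Fin 5) t b

/-- Labels. -/
def fD : Fin 492 ⊕ (Fin 2 × Fin 3) → Fin 5 → Fin 5 :=
  Sum.elim (fun _ v => v) (fun p => stF p.1 p.2)

/-- Inverse labels. -/
def gD : Fin 492 ⊕ (Fin 2 × Fin 3) → Fin 5 → Fin 5 :=
  Sum.elim (fun _ v => v) (fun p => stG p.1 p.2)

theorem gfD (i : Fin 492 ⊕ (Fin 2 × Fin 3)) (v : Fin 5) : gD i (fD i v) = v := by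
  rcases i with r | ⟨t, b⟩
  · rfl
  · revert t b v
    decide +kernel

theorem fgD (i : Fin 492 ⊕ (Fin 2 × Fin 3)) (v : Fin 5) : fD i (gD i v) = v := by
  rcases i with r | ⟨t, b⟩
  · rfl
  · revert t b v
    decide +kernel

/-- Numbers in `Cp492` of the facets with number `n < 100` of `B3.XC`. -/
def renDL : List ℕ :=
  [2415, 2472, 2462, 2480, 2451, 2440, 2422, 2456, 2468, 2449, 2423, 2447, 2476, 2424, 2457, 2448,
    2421, 2446]

/-- Renumbering. -/
def renD (n : ℕ) : ℕ :=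
  if n < 100 then renDL.getD n 0 else 5 * kpn ((n - 100) / 5) + (n - 100) % 5

/-- The ids back. -/
def ukn (j : ℕ) : ℕ :=
  if j < 484 then j else
    ([0, 484, 485, 486, 487, 0, 488, 0, 489, 0, 490, 0, 491, 0] : List ℕ).getD (j - 484) 0

/-- Inverse renumbering. -/
def renD' (m : ℕ) : ℕ :=
  if m ∈ renDL then renDL.idxOf m else 100 + (5 * ukn (m / 5) + m % 5)

/-- Reorderings. -/
def sigDL : List (List ℕ) :=
  [[2, 1, 0, 3], [0, 3, 1, 2], [0, 3, 2, 1], [3, 0, 2, 1], [1, 3, 0, 2], [1, 3, 0, 2],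
    [0, 2, 1, 3], [0, 3, 1, 2], [0, 1, 3, 2], [0, 2, 3, 1], [0, 2, 1, 3], [0, 2, 1, 3],
    [0, 3, 1, 2], [0, 3, 2, 1], [0, 2, 1, 3], [0, 1, 3, 2], [0, 2, 1, 3], [0, 3, 1, 2]]

/-- Reorderings. -/
def sigD (n : ℕ) : List ℕ := sigDL.getD n [0, 1, 2, 3]

theorem sigD_ok (n : ℕ) : 4 = (sigD n).length ∧ (∀ k ∈ sigD n, k < (sigD n).length) ∧
    (∀ k < (sigD n).length, k ∈ sigD n) := by
  by_cases h : n < 18
  · interval_cases n <;> decide
  · have : sigD n = [0, 1, 2, 3] := by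
      unfold sigD
      rw [List.getD_eq_default]
      show 18 ≤ n
      omega
    rw [this]
    decide

theorem h5Dr : ∀ (r : Fin 492) (v : Fin 5),
    numD (phiD (Sum.inl r)) v = renD (numR0 r v) ∧
    numR0 r v = renD' (numD (phiD (Sum.inl r)) v) := by
  decide +kernel

theorem h7Dr : ∀ (r : Fin 492) (v : Fin 5), odD (phiD (Sum.inl r)) v =
    ((sigD (numR0 r v)).map (fun k => (odR0 r v).getD k default)).map (fun v => v) := by
  decide +kernel

theorem h5Dk : ∀ (t : Fin 2) (k : Fin 3) (v : Fin 5),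
    numD (phiD (Sum.inr (t, k))) (stF t k v) = renD (B3.numS t k v) ∧
    B3.numS t k v = renD' (numD (phiD (Sum.inr (t, k))) (stF t k v)) := by
  decide +kernel

theorem h7Dk : ∀ (t : Fin 2) (k : Fin 3) (v : Fin 5), odD (phiD (Sum.inr (t, k))) (stF t k v) =
    ((sigD (B3.numS t k v)).map (fun l => (B3.od5 v).getD l default)).map (stF t k) := by
  decide +kernel

theorem odC_len (i : Fin 492 ⊕ (Fin 2 × Fin 3)) (v : Fin 5) :
    (B3.odC odR0 i v).length = 4 := by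
  rcases i with r | ⟨t, k⟩
  · show (odR0 r v).length = 4
    rw [(odR0_perm r v).length_eq, od5_len]
  · exact od5_len v

/-- **`B3.XC numR0 odR0` is isomorphic to `Cp492`.** -/
theorem isoD : Iso (B3.lab5 (ρ := Fin 492 ⊕ (Fin 2 × Fin 3))) (B3.numC numR0) (B3.odC odR0)
    (labU : Fin 498 → Finset (Fin 5)) numD odD phiD psiD fD (fun j => gD (psiD j))
    Set.univ Set.univ := by
  refine isoT phiD psiD fD gD psiD_phiD phiD_psiD gfD fgD renD renD' sigD ?_ ?_ ?_ ?_ ?_ ?_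
  · rintro (r | ⟨t, k⟩) v
    · exact (h5Dr r v).1
    · exact (h5Dk t k v).1
  · rintro (r | ⟨t, k⟩) v
    · exact (h5Dr r v).2
    · exact (h5Dk t k v).2
  · rintro (r | ⟨t, k⟩) v
    · exact h7Dr r v
    · exact h7Dk t k v
  · intro i v
    rw [odC_len]
    exact (sigD_ok _).1
  · intro i v
    exact (sigD_ok _).2.1
  · intro i v
    exact (sigD_ok _).2.2

end MP55B
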