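import Pool.Agent.Lib_MP_55d5ef_i.BIso

/-!
# `B3.XN numR0 odR0` is the official `N504`
-/

set_option linter.unusedSectionVars false

namespace MP55B

open Fl49 PL55 H4T H4C

/-- The bijection of the records. -/
def phiN : Fin 492 ⊕ (Fin 2 × Fin 6) → Fin 504 :=
  Sum.elim inN (fun p => ⟨492 + 6 * p.1.1 + p.2.1, by omega⟩)

/-- Its inverse. -/
def psiN (j : Fin 504) : Fin 492 ⊕ (Fin 2 × Fin 6) :=
  if h : j.1 < 492 then Sum.inl ⟨j.1, h⟩
  else Sum.inr (⟨(j.1 - 492) / 6, by omega⟩, ⟨(j.1 - 492) % 6, by omega⟩)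

theorem psiN_phiN (i : Fin 492 ⊕ (Fin 2 × Fin 6)) : psiN (phiN i) = i := by
  rcases i with r | ⟨t, k⟩
  · unfold psiN
    have h : (phiN (Sum.inl r)).1 < 492 := r.2
    rw [dif_pos h]
    rfl
  · revert t k
    decide +kernel

theorem phiN_psiN (j : Fin 504) : phiN (psiN j) = j := by
  by_cases h : j.1 < 492
  · unfold psiN
    rw [dif_pos h]
    rfl
  · unfold psiN
    rw [dif_neg h]
    apply Fin.ext
    show 492 + 6 * ((j.1 - 492) / 6) + (j.1 - 492) % 6 = j.1
    omega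

/-- Numbers in `N504` of the facets with number `n < 100` of `B3.XN`. -/
def renNL : List ℕ :=
  [2415, 2452, 2447, 2455, 2441, 2435, 0, 0, 0, 0, 0, 0, 0, 0, 0, 0, 0, 0, 0, 0, 2461, 2491, 2462,
    2492, 2475, 2464, 2466, 2496, 2468, 2498, 2480, 2469, 2471, 2501, 2477, 2507, 2478, 2508, 2485,
    2479, 2482, 2512, 2488, 2518, 0, 0, 0, 0, 0, 0, 2463, 2472, 2486]

/-- Renumbering. -/
def renN (n : ℕ) : ℕ := if n < 100 then renNL.getD n 0 else n - 100

theorem renN_bnum (n : ℕ) : renN (bnum n) = n := by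
  unfold bnum
  split_ifs with h1 h2 h3 h4 h5 h6
  · exact h1.symm
  · exact h2.symm
  · exact h3.symm
  · exact h4.symm
  · exact h5.symm
  · exact h6.symm
  · unfold renN
    rw [if_neg (by omega)]
    omega

/-- Numbers in `B3.XN` of the facets with numbers `≥ 2460` of `N504`. -/
def kkN : List ℕ :=
  [0, 20, 22, 50, 25, 1, 26, 22, 28, 31, 2, 32, 51, 28, 20, 24, 26, 34, 36, 39, 30, 32, 40, 36, 34,
    38, 52, 40, 42, 42, 3, 21, 23, 50, 24, 4, 27, 23, 29, 30, 5, 33, 51, 29, 21, 25, 27, 35, 37,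
    38, 31, 33, 41, 37, 35, 39, 52, 41, 43, 43]

/-- Inverse renumbering. -/
def renN' (n : ℕ) : ℕ := if n < 2460 then bnum n else kkN.getD (n - 2460) 0

theorem numN_lt (r : Fin 492) (v : Fin 5) : numN (inN r) v < 2460 := by
  have h1 : numN (inN r) v ≤ GTab.cd (inN r) v := min_le_left _ _
  have h2 : GTab.cd (inN r) v = 5 * r.1 + v.1 := rfl
  have h3 := r.2
  have h4 := v.2
  omega

/-- Reorderings of the boundary facets. -/
def sigB : List (List ℕ) :=
  [[2, 1, 0, 3], [0, 3, 1, 2], [0, 3, 2, 1], [3, 0, 2, 1], [1, 3, 0, 2], [1, 3, 0, 2]]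

/-- Reorderings. -/
def sigN (n : ℕ) : List ℕ := sigB.getD n [0, 1, 2, 3]

theorem sigN_ok (n : ℕ) : 4 = (sigN n).length ∧ (∀ k ∈ sigN n, k < (sigN n).length) ∧
    (∀ k < (sigN n).length, k ∈ sigN n) := by
  by_cases h : n < 6
  · interval_cases n <;> decide
  · have : sigN n = [0, 1, 2, 3] := by
      unfold sigN
      rw [List.getD_eq_default]
      show 6 ≤ n
      omega
    rw [this]
    decide

theorem h7Nr : ∀ (r : Fin 492) (v : Fin 5), odN (inN r) v =
    ((sigN (numR0 r v)).map (fun k => (odR0 r v).getD k default)).map (fun v => v) := by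
  decide +kernel

theorem h5Nk : ∀ (t : Fin 2) (k : Fin 6) (v : Fin 5),
    numN (phiN (Sum.inr (t, k))) v = renN (B3.numK t k v) ∧
    B3.numK t k v = renN' (numN (phiN (Sum.inr (t, k))) v) := by
  decide +kernel

theorem h7Nk : ∀ (t : Fin 2) (k : Fin 6) (v : Fin 5), odN (phiN (Sum.inr (t, k))) v =
    ((sigN (B3.numK t k v)).map (fun l => (B3.od5 v).getD l default)).map (fun v => v) := by
  decide +kernel

theorem od5_len (v : Fin 5) : (B3.od5 v).length = 4 := by
  revert v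
  decide

theorem odN_len (i : Fin 492 ⊕ (Fin 2 × Fin 6)) (v : Fin 5) :
    (B3.odN odR0 i v).length = 4 := by
  rcases i with r | ⟨t, k⟩
  · show (odR0 r v).length = 4
    rw [(odR0_perm r v).length_eq, od5_len]
  · exact od5_len v

/-- **`B3.XN numR0 odR0` is isomorphic to `N504`.** -/
theorem isoN : Iso (B3.lab5 (ρ := Fin 492 ⊕ (Fin 2 × Fin 6))) (B3.numN numR0) (B3.odN odR0)
    (labU : Fin 504 → Finset (Fin 5)) numN odN phiN psiN (fun _ v => v) (fun _ v => v)
    Set.univ Set.univ := by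
  refine isoT phiN psiN (fun _ v => v) (fun _ v => v) psiN_phiN phiN_psiN (fun _ _ => rfl)
    (fun _ _ => rfl) renN renN' sigN ?_ ?_ ?_ ?_ ?_ ?_
  · rintro (r | ⟨t, k⟩) v
    · exact (renN_bnum _).symm
    · exact (h5Nk t k v).1
  · rintro (r | ⟨t, k⟩) v
    · show bnum (numN (inN r) v) = renN' (numN (inN r) v)
      unfold renN'
      rw [if_pos (numN_lt r v)]
    · exact (h5Nk t k v).2
  · rintro (r | ⟨t, k⟩) v
    · exact h7Nr r v
    · exact h7Nk t k v
  · intro i v
    rw [odN_len]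
    exact (sigN_ok _).1
  · intro i v
    exact (sigN_ok _).2.1
  · intro i v
    exact (sigN_ok _).2.2

end MP55B
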