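import Pool.Agent.Lib_MP_55d5ef_i.BIsoD

/-!
# The cone point of `B3.XC numR0 odR0` in the official `Cp492`
-/

set_option linter.unusedSectionVars false

namespace MP55B

open Fl49 PL55 H4T H4C

theorem e0_vx : B3.e0 = vx (0 : Fin 5) := by
  funext i
  fin_cases i <;> simp [B3.e0, vx]

theorem chC_e0 (t : Fin 2) (k : Fin 3) : B3.chC numR0 odR0 t k B3.e0 =
    pt (B3.lab5 (ρ := Fin 492 ⊕ (Fin 2 × Fin 3))) (B3.numC numR0) (B3.odC odR0)
      (Sum.inr (t, k)) (Set.mem_univ _) (vx 0) (vx_mem (Finset.mem_univ _)) := by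
  unfold B3.chC
  rw [B3.cp_of _ B3.e0_mem]
  exact pt_congr _ _ _ e0_vx

theorem stF_zero (t : Fin 2) (k : Fin 3) : stF t k 0 = 0 := by
  revert t k
  decide

/-- The cone point is the vertex `0` of each of the six records `stL t k` of `Cp492`. -/
theorem isoD_mark (t : Fin 2) (k : Fin 3) : isoD.homeo (B3.chC numR0 odR0 t k B3.e0) =
    pt (labU : Fin 498 → Finset (Fin 5)) numD odD (stL t k) (Set.mem_univ _) (vx 0)
      (vx_mem (Finset.mem_univ _)) := by
  rw [chC_e0]
  refine (isoD.ix_vx (Set.mem_univ _) (Finset.mem_univ _)).trans ?_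
  refine pt_congr2 rfl _ _ _ _ ?_
  show vx (stF t k 0) = vx 0
  rw [stF_zero]

end MP55B
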