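import Mathlib

/-!
The square `[-1,1]²` as a cone over its boundary: `hR p` = distance from the centre (maximum
norm), `hW p` = `hR p` times the position (in `[0,1)`) on the boundary, starting at the corner
`(1,-1)`; `Pq r w` = inverse map.
-/

namespace MP55I

/-- Maximum norm. -/
noncomputable def hR (p : Fin 2 → ℝ) : ℝ := max |p 0| |p 1|

/-- Norm times the position on the boundary. -/
noncomputable def hW (p : Fin 2 → ℝ) : ℝ :=
  if p 0 = hR p then (p 0 + p 1) / 8 else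
  if p 1 = hR p then (3 * p 1 - p 0) / 8 else
  if p 0 = - hR p then (- 5 * p 0 - p 1) / 8 else (- 7 * p 1 + p 0) / 8

/-- The inverse map. -/
noncomputable def Pq (r w : ℝ) : Fin 2 → ℝ :=
  if 4 * w ≤ r then ![r, 8 * w - r] else
  if 2 * w ≤ r then ![3 * r - 8 * w, r] else
  if 4 * w ≤ 3 * r then ![- r, 5 * r - 8 * w] else ![8 * w - 7 * r, - r]

theorem hR_nonneg (p : Fin 2 → ℝ) : 0 ≤ hR p := le_max_of_le_left (abs_nonneg _)

theorem hR_le {p : Fin 2 → ℝ} {c : ℝ} : hR p ≤ c ↔ ∀ i, |p i| ≤ c := by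
  unfold hR
  rw [max_le_iff]
  constructor
  · rintro ⟨h0, h1⟩ i
    fin_cases i
    · exact h0
    · exact h1
  · intro h; exact ⟨h 0, h 1⟩

theorem hR_lt {p : Fin 2 → ℝ} {c : ℝ} : hR p < c ↔ ∀ i, |p i| < c := by
  unfold hR
  rw [max_lt_iff]
  constructor
  · rintro ⟨h0, h1⟩ i
    fin_cases i
    · exact h0
    · exact h1
  · intro h; exact ⟨h 0, h 1⟩

/-- The four triangles of the square. -/
theorem hR_cases (p : Fin 2 → ℝ) :
    (p 0 = hR p ∧ - hR p ≤ p 1 ∧ p 1 ≤ hR p) ∨ (p 1 = hR p ∧ - hR p ≤ p 0 ∧ p 0 ≤ hR p) ∨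
    (p 0 = - hR p ∧ - hR p ≤ p 1 ∧ p 1 ≤ hR p) ∨ (p 1 = - hR p ∧ - hR p ≤ p 0 ∧ p 0 ≤ hR p) := by
  have h0 : |p 0| ≤ hR p := le_max_left _ _
  have h1 : |p 1| ≤ hR p := le_max_right _ _
  obtain ⟨a0, a1⟩ := abs_le.mp h0
  obtain ⟨b0, b1⟩ := abs_le.mp h1
  rcases max_choice |p 0| |p 1| with h | h
  · rcases abs_choice (p 0) with h' | h'
    · left; exact ⟨by unfold hR; rw [h, h'], b0, b1⟩
    · right; right; left; exact ⟨by unfold hR; rw [h, h']; ring, b0, b1⟩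
  · rcases abs_choice (p 1) with h' | h'
    · right; left; exact ⟨by unfold hR; rw [h, h'], a0, a1⟩
    · right; right; right; exact ⟨by unfold hR; rw [h, h']; ring, a0, a1⟩

theorem hR_of {p : Fin 2 → ℝ} {r : ℝ} (h0 : - r ≤ p 0 ∧ p 0 ≤ r) (h1 : - r ≤ p 1 ∧ p 1 ≤ r)
    (h : p 0 = r ∨ p 1 = r ∨ p 0 = - r ∨ p 1 = - r) : hR p = r := by
  have a0 : |p 0| ≤ r := abs_le.mpr h0
  have a1 : |p 1| ≤ r := abs_le.mpr h1
  have hr : 0 ≤ r := le_trans (abs_nonneg _) a0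
  refine le_antisymm (max_le a0 a1) ?_
  show r ≤ max |p 0| |p 1|
  rcases h with h | h | h | h
  · rw [h, abs_of_nonneg hr]; exact le_max_left _ _
  · rw [h, abs_of_nonneg hr]; exact le_max_right _ _
  · rw [h, abs_neg, abs_of_nonneg hr]; exact le_max_left _ _
  · rw [h, abs_neg, abs_of_nonneg hr]; exact le_max_right _ _

theorem Pq_hW (p : Fin 2 → ℝ) : Pq (hR p) (hW p) = p := by
  have h0 := hR_nonneg p
  have hc := hR_cases p
  have e : ∀ a b : ℝ, a = p 0 → b = p 1 → ![a, b] = p := by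
    intro a b ha hb
    ext i
    fin_cases i
    · exact ha
    · exact hb
  unfold Pq hW
  split_ifs with h1 h2 h3 h4 h5 h6 h7 h8 h9 h10 h11 h12 h13 h14 h15 <;> apply e <;>
    rcases hc with ⟨q1, q2, q3⟩ | ⟨q1, q2, q3⟩ | ⟨q1, q2, q3⟩ | ⟨q1, q2, q3⟩ <;>
    first
    | linarith
    | exact absurd q1 (by assumption)

theorem hR_Pq {r w : ℝ} (h0 : 0 ≤ w) (h1 : w ≤ r) : hR (Pq r w) = r := by
  unfold Pq
  split_ifs with h2 h3 h4 <;> apply hR_of <;>
    simp only [Matrix.cons_val_zero, Matrix.cons_val_one, Matrix.cons_val_fin_one, true_or,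
      or_true] <;> constructor <;> linarith

theorem hW_Pq {r w : ℝ} (h0 : 0 ≤ w) (h1 : w < r) : hW (Pq r w) = w := by
  have hr := hR_Pq h0 h1.le
  unfold hW
  rw [hr]
  unfold Pq
  split_ifs <;>
    simp only [Matrix.cons_val_zero, Matrix.cons_val_one, Matrix.cons_val_fin_one,
      not_true_eq_false] at * <;> linarith

theorem Pq_self {r : ℝ} (h0 : 0 ≤ r) : Pq r r = Pq r 0 := by
  rcases h0.eq_or_lt with h | h
  · rw [← h]
  · unfold Pq
    rw [if_neg (by linarith), if_neg (by linarith), if_neg (by linarith), if_pos (by linarith)]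
    ext i
    fin_cases i
    · show 8 * r - 7 * r = r; ring
    · show - r = 8 * 0 - r; ring

theorem hW_nonneg (p : Fin 2 → ℝ) : 0 ≤ hW p := by
  have h0 := hR_nonneg p
  have hc := hR_cases p
  unfold hW
  split_ifs with h1 h2 h3 <;>
    rcases hc with ⟨q1, q2, q3⟩ | ⟨q1, q2, q3⟩ | ⟨q1, q2, q3⟩ | ⟨q1, q2, q3⟩ <;>
    first
    | linarith
    | exact absurd q1 (by assumption)

theorem hW_lt {p : Fin 2 → ℝ} (h : 0 < hR p) : hW p < hR p := by
  have hc := hR_cases p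
  unfold hW
  split_ifs with h1 h2 h3 <;>
    rcases hc with ⟨q1, q2, q3⟩ | ⟨q1, q2, q3⟩ | ⟨q1, q2, q3⟩ | ⟨q1, q2, q3⟩ <;>
    first
    | linarith
    | exact absurd q1 (by assumption)
    | (rcases lt_or_eq_of_le q3 with h4 | h4
       · linarith
       · exact absurd h4 (by assumption))

theorem hW_le (p : Fin 2 → ℝ) : hW p ≤ hR p := by
  rcases (hR_nonneg p).eq_or_lt with h | h
  · have hc := hR_cases p
    unfold hW
    split_ifs with h1 h2 h3 <;>
      rcases hc with ⟨q1, q2, q3⟩ | ⟨q1, q2, q3⟩ | ⟨q1, q2, q3⟩ | ⟨q1, q2, q3⟩ <;> linarith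
  · exact (hW_lt h).le

theorem hW_zero {p : Fin 2 → ℝ} (h : hR p = 0) : hW p = 0 :=
  le_antisymm (h ▸ hW_le p) (hW_nonneg p)

theorem hR_eq_zero {p : Fin 2 → ℝ} : hR p = 0 ↔ p = 0 := by
  constructor
  · intro h
    have h1 := (hR_le (p := p) (c := 0)).mp h.le
    ext i
    exact abs_eq_zero.mp (le_antisymm (h1 i) (abs_nonneg _))
  · rintro rfl
    simp [hR]

/-- On the first triangle. -/
theorem hW_side0 {p : Fin 2 → ℝ} (h : p 0 = hR p) : hW p = (p 0 + p 1) / 8 := by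
  unfold hW; rw [if_pos h]

end MP55I
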