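import Pool.Agent.Lib_MP_55d5ef_pl.PLX
import Pool.Agent.Lib_MP_55d5ef_i.ISq

/-!
The twelve staircase pentachora of `D² × T²` inside a generalised triangulation: combinatorial
hypotheses `KH`.

Record `rc t k`, `t : Bool` = triangle of the torus, `k : Fin 6` = the word
RRCC, RCRC, RCCR, CRRC, CRCR, CCRR (R = next row, C = next column); vertices `0, .., 4` in path
order.
-/

namespace MP55I

open Fl49 PL55

/-- The neighbour across the facet `v`: (change of triangle, word, facet). -/
def nbT : Fin 6 → Fin 5 → Option (Bool × Fin 6 × Fin 5)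
  | 0, 0 => none
  | 0, 1 => some (false, 2, 4)
  | 0, 2 => some (false, 1, 2)
  | 0, 3 => some (true, 0, 3)
  | 0, 4 => some (true, 3, 0)
  | 1, 0 => none
  | 1, 1 => some (false, 3, 1)
  | 1, 2 => some (false, 0, 2)
  | 1, 3 => some (false, 2, 3)
  | 1, 4 => some (true, 4, 0)
  | 2, 0 => none
  | 2, 1 => some (false, 4, 1)
  | 2, 2 => some (true, 2, 2)
  | 2, 3 => some (false, 1, 3)
  | 2, 4 => some (false, 0, 1)
  | 3, 0 => some (true, 0, 4)
  | 3, 1 => some (false, 1, 1)
  | 3, 2 => some (false, 4, 4)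
  | 3, 3 => some (false, 4, 3)
  | 3, 4 => some (true, 5, 0)
  | 4, 0 => some (true, 1, 4)
  | 4, 1 => some (false, 2, 1)
  | 4, 2 => some (false, 5, 2)
  | 4, 3 => some (false, 3, 3)
  | 4, 4 => some (false, 3, 2)
  | 5, 0 => some (true, 3, 4)
  | 5, 1 => some (true, 5, 1)
  | 5, 2 => some (false, 4, 2)
  | 5, 3 => some (false, 5, 4)
  | 5, 4 => some (false, 5, 3)

/-- The order preserving bijection from the vertices other than `v` to those other than `w`. -/
def pmN (v w l : ℕ) : ℕ :=
  (if l < v then l else l - 1) + (if (if l < v then l else l - 1) < w then 0 else 1)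

/-- The same on `Fin 5`. -/
def pm (v w l : Fin 5) : Fin 5 := Fin.ofNat 5 (pmN v w l)

/-- The combinatorial hypotheses. -/
structure KH {ρ : Type} (lab : ρ → Finset (Fin 5)) (num : ρ → Fin 5 → ℕ)
    (od : ρ → Fin 5 → List (Fin 5)) (S : Set ρ) (rc : Bool → Fin 6 → ρ) : Prop where
  /-- the records belong to the triangulation -/
  mem : ∀ t k, rc t k ∈ S
  /-- different records -/
  inj : ∀ t k t' k', rc t k = rc t' k' → t = t' ∧ k = k'
  /-- all five vertices -/
  hlab : ∀ t k, lab (rc t k) = Finset.univ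
  /-- the ordering of the facet `v` contains the other vertices -/
  ods : ∀ t k (v l : Fin 5), l ≠ v → l ∈ od (rc t k) v
  /-- and nothing else -/
  odl : ∀ t k (v l : Fin 5), l ∈ od (rc t k) v → l ≠ v
  /-- the gluings -/
  hnum : ∀ t k (v : Fin 5) (u : Bool) (k' : Fin 6) (w : Fin 5), nbT k v = some (u, k', w) →
    num (rc t k) v = num (rc (xor t u) k') w ∧
      od (rc (xor t u) k') w = (od (rc t k) v).map (pm v w)
  /-- no other gluings -/
  sat : ∀ t k (v : Fin 5), ∀ j ∈ S, ∀ w ∈ lab j, num (rc t k) v = num j w →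
    (j = rc t k ∧ w = v) ∨
    (∃ (u : Bool) (k' : Fin 6), nbT k v = some (u, k', w) ∧ j = rc (xor t u) k') ∨
    (nbT k v = none ∧ ∀ t' k', j ≠ rc t' k')

end MP55I
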