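import Pool.Agent.Lib_MP_55d5ef_i.IDef
import Pool.Agent.Lib_MP_55d5ef_fl.Ich

/-!
# The combinatorial hypotheses `KH` for the twelve staircase records of a list of records

Records in `Ri` whose labels are `0, .., 4` are seen as records with labels in `Fin 5`
(`lab5`, `num5`, `od5`); `iso5` is the isomorphism.  `chkKC R = true` (kernel check on the 12
records), membership of the 12 records in the list `L` and `InvL L N` (at most two facets with
the same number) give `KH`.
-/

namespace MP55I

open Fl49 PL55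

/-- Labels in `Fin 5`. -/
def lab5 (_ : Ri) : Finset (Fin 5) := Finset.univ

/-- Facet numbers, labels in `Fin 5`. -/
def num5 (r : Ri) (v : Fin 5) : ℕ := numR r v

/-- Orderings, labels in `Fin 5`. -/
def od5 (r : Ri) (v : Fin 5) : List (Fin 5) := (odR r v).map (Fin.ofNat 5)

theorem ofNat5_val {v : ℕ} (hv : v < 5) : ((Fin.ofNat 5 v : Fin 5) : ℕ) = v :=
  Nat.mod_eq_of_lt hv

theorem ofNat5_coe (w : Fin 5) : Fin.ofNat 5 (w : ℕ) = w :=
  Fin.ext (ofNat5_val w.2)

/-- Records with labels `0, .., 4` as records with labels in `Fin 5`. -/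
theorem iso5 {S : Set Ri} (hG : Gd S) (hl : ∀ r ∈ S, labR r = Finset.range 5) :
    Iso labR numR odR lab5 num5 od5 (fun r => r) (fun r => r) (fun _ v => Fin.ofNat 5 v)
      (fun _ w => (w : ℕ)) S S := by
  have h5 : ∀ r ∈ S, ∀ v ∈ labR r, v < 5 := by
    intro r hr v hv
    rw [hl r hr] at hv
    exact Finset.mem_range.mp hv
  refine Iso.of_of (fun i hi => hi) (fun i hi => hi) (fun i _ => rfl) (fun i _ => rfl)
    (fun i _ v _ => Finset.mem_univ _) ?_ ?_ ?_ ?_ ?_ ?_
  · intro j hj w _
    show (w : ℕ) ∈ labR j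
    rw [hl j hj]
    exact Finset.mem_range.mpr w.2
  · intro i hi v hv
    exact ofNat5_val (h5 i hi v hv)
  · intro j _ w _
    exact ofNat5_coe w
  · intro i hi v hv j hj w hw
    show numR i ((Fin.ofNat 5 v : Fin 5) : ℕ) = numR j ((Fin.ofNat 5 w : Fin 5) : ℕ) ↔ _
    rw [ofNat5_val (h5 i hi v hv), ofNat5_val (h5 j hj w hw)]
  · intro i hi v hv
    show (odR i ((Fin.ofNat 5 v : Fin 5) : ℕ)).map (Fin.ofNat 5) = _
    rw [ofNat5_val (h5 i hi v hv)]
  · intro i hi v hv l hl'
    exact ((hG i hi v hv l).mp hl').1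

/-- All records have the labels `0, .., 4`, in this order. -/
def chk5 : List Ri → Bool
  | [] => true
  | r :: L => match leq (fs r.2) [0, 1, 2, 3, 4] with
    | true => chk5 L
    | false => false

theorem leq_eq : ∀ l k : List ℕ, leq l k = true → l = k
  | [], [], _ => rfl
  | [], _ :: _, h => by simp [leq] at h
  | _ :: _, [], h => by simp [leq] at h
  | a :: l, b :: k, h => by
    unfold leq at h
    cases h1 : Nat.beq a b with
    | false => rw [h1] at h; exact absurd h (by simp)
    | true =>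
      rw [h1] at h
      rw [Nat.eq_of_beq_eq_true h1, leq_eq l k h]

theorem chk5_lab : ∀ L : List Ri, chk5 L = true → ∀ r ∈ sL L, labR r = Finset.range 5
  | [], _, r, hr => absurd hr (List.not_mem_nil)
  | a :: L, h, r, hr => by
    unfold chk5 at h
    cases h1 : leq (fs a.2) [0, 1, 2, 3, 4] with
    | false => rw [h1] at h; exact absurd h (by simp)
    | true =>
      rw [h1] at h
      rcases List.mem_cons.mp hr with rfl | hr
      · unfold labR
        rw [← fs_eq, leq_eq _ _ h1]
        rfl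
      · exact chk5_lab L h r hr

/-- The record of the triangle `t` and the word `k`. -/
def rcR (R : List Ri) (t : Bool) (k : Fin 6) : Ri := R.getD ((cond t 6 0) + (k : ℕ)) (0, [])

/-- The check of one facet. -/
def chk1 (R : List Ri) (t : Bool) (k : Fin 6) (v : Fin 5) : Bool :=
  match nbT k v with
  | none => decide (∀ (t' : Bool) (k' : Fin 6) (w : Fin 5),
      numR (rcR R t k) v = numR (rcR R t' k') w → t' = t ∧ k' = k ∧ w = v)
  | some (u, k', w) =>
      decide (numR (rcR R t k) v = numR (rcR R (xor t u) k') w ∧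
        odR (rcR R (xor t u) k') w = (odR (rcR R t k) v).map (pmN v w) ∧
        ¬ (xor t u = t ∧ k' = k ∧ w = v))

/-- The kernel check on the twelve records. -/
def chkKC (R : List Ri) : Bool :=
  decide (∀ (t : Bool) (k : Fin 6), (rcR R t k).2.map Prod.fst = [0, 1, 2, 3, 4]) &&
  decide (∀ (t : Bool) (k : Fin 6) (t' : Bool) (k' : Fin 6),
    (rcR R t k).1 = (rcR R t' k').1 → t = t' ∧ k = k') &&
  decide (∀ (t : Bool) (k : Fin 6) (v l : Fin 5), l ≠ v → (l : ℕ) ∈ odR (rcR R t k) v) &&
  decide (∀ (t : Bool) (k : Fin 6) (v : Fin 5), ∀ l ∈ odR (rcR R t k) v, l < 5 ∧ l ≠ v) &&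
  decide (∀ (t : Bool) (k : Fin 6) (v : Fin 5), chk1 R t k v = true)

/-- The hypotheses `KH` from the checks: `L` is the list of all records, `R` the list of the
twelve staircase records. -/
theorem KH_of_chk {L R : List Ri} {N : ℕ} (hI : InvL L N) (hL : chk5 L = true)
    (hR : ∀ t k, rcR R t k ∈ L) (hc : chkKC R = true) :
    KH lab5 num5 od5 (sL L) (rcR R) := by
  unfold chkKC at hc
  simp only [Bool.and_eq_true, decide_eq_true_eq] at hc
  obtain ⟨⟨⟨⟨c1, c2⟩, c3⟩, c4⟩, c5⟩ := hc
  have hlab : ∀ t k, labR (rcR R t k) = Finset.range 5 := by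
    intro t k
    unfold labR
    rw [c1 t k]
    rfl
  have hnum : ∀ t k (v : Fin 5) (u : Bool) (k' : Fin 6) (w : Fin 5), nbT k v = some (u, k', w) →
      numR (rcR R t k) v = numR (rcR R (xor t u) k') w ∧
        odR (rcR R (xor t u) k') w = (odR (rcR R t k) v).map (pmN v w) ∧
        ¬ (xor t u = t ∧ k' = k ∧ w = v) := by
    intro t k v u k' w h
    have h1 := c5 t k v
    unfold chk1 at h1
    rw [h] at h1
    exact of_decide_eq_true h1
  have hnone : ∀ t k (v : Fin 5), nbT k v = none → ∀ (t' : Bool) (k' : Fin 6) (w : Fin 5),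
      numR (rcR R t k) v = numR (rcR R t' k') w → t' = t ∧ k' = k ∧ w = v := by
    intro t k v h
    have h1 := c5 t k v
    unfold chk1 at h1
    rw [h] at h1
    exact of_decide_eq_true h1
  have hinj : ∀ t k t' k', rcR R t k = rcR R t' k' → t = t' ∧ k = k' := fun t k t' k' h =>
    c2 t k t' k' (congrArg Prod.fst h)
  have hmem5 : ∀ t k (w : Fin 5), (w : ℕ) ∈ labR (rcR R t k) := by
    intro t k w
    rw [hlab]
    exact Finset.mem_range.mpr w.2
  have htw : Tw (sL L) := by
    obtain ⟨t, ht, hi⟩ := hI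
    rw [← ht]
    exact hi.tw
  have hL5 : ∀ j ∈ sL L, ∀ w : Fin 5, (w : ℕ) ∈ labR j := by
    intro j hj w
    rw [chk5_lab L hL j hj]
    exact Finset.mem_range.mpr w.2
  refine ⟨hR, hinj, fun _ _ => rfl, ?_, ?_, ?_, ?_⟩
  · intro t k v l hlv
    exact List.mem_map.mpr ⟨l, c3 t k v l hlv, ofNat5_coe l⟩
  · intro t k v l hl
    obtain ⟨m, hm, rfl⟩ := List.mem_map.mp hl
    obtain ⟨h1, h2⟩ := c4 t k v m hm
    intro h
    apply h2
    rw [← h]
    exact (ofNat5_val h1).symm
  · intro t k v u k' w h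
    obtain ⟨h1, h2, _⟩ := hnum t k v u k' w h
    refine ⟨h1, ?_⟩
    show (odR (rcR R (xor t u) k') w).map (Fin.ofNat 5) = ((odR (rcR R t k) v).map
      (Fin.ofNat 5)).map (pm v w)
    rw [h2, List.map_map, List.map_map]
    refine List.map_congr_left (fun l hl => ?_)
    obtain ⟨h3, h4⟩ := c4 t k v l hl
    show Fin.ofNat 5 (pmN v w l) = pm v w (Fin.ofNat 5 l)
    unfold pm
    rw [ofNat5_val h3]
  · intro t k v j hj w _ hn
    change numR (rcR R t k) v = numR j w at hn
    rcases h : nbT k v with _ | ⟨u, k', w'⟩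
    · -- an outer facet
      by_cases he : j = rcR R t k ∧ w = v
      · exact Or.inl he
      · refine Or.inr (Or.inr ⟨rfl, ?_⟩)
        intro t' k' hj'
        apply he
        rw [hj'] at hn
        obtain ⟨e1, e2, e3⟩ := hnone t k v h t' k' w hn
        exact ⟨by rw [hj', e1, e2], e3⟩
    · obtain ⟨h1, h2, h3⟩ := hnum t k v u k' w' h
      rcases htw _ (hR t k) v (hmem5 t k v) j hj w (hL5 j hj w) _ (hR (xor t u) k') w'
        (hmem5 (xor t u) k' w') hn h1 with h4 | h4 | h4
      · left
        have h5 := congrArg Prod.fst h4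
        have h6 := congrArg Prod.snd h4
        exact ⟨h5.symm, Fin.ext h6.symm⟩
      · exfalso
        have h5 := congrArg Prod.fst h4
        have h6 := congrArg Prod.snd h4
        obtain ⟨e1, e2⟩ := hinj _ _ _ _ h5
        exact h3 ⟨e1.symm, e2.symm, Fin.ext h6.symm⟩
      · right; left
        have h5 := congrArg Prod.fst h4
        have h6 := congrArg Prod.snd h4
        refine ⟨u, k', ?_, h5⟩
        rw [show w = w' from Fin.ext h6]

/-- Membership of the twelve records from a Boolean check. -/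
theorem rcR_mem {L R : List Ri} (hl : R.length = 12) (h : ∀ r ∈ R, r ∈ L) :
    ∀ t k, rcR R t k ∈ L := by
  intro t k
  apply h
  unfold rcR
  have hk := k.2
  have hlt : (cond t 6 0) + (k : ℕ) < R.length := by
    rw [hl]
    cases t <;> simp <;> omega
  rw [List.getD_eq_getElem?_getD, List.getElem?_eq_getElem hlt, Option.getD_some]
  exact List.getElem_mem hlt

end MP55I
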