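import Pool.Agent.Lib_MP_55d5ef_i.IKap

/-!
The product neighbourhood `iota0 : ℝ² × ℝ² → X`, its inverse `Psi`, injectivity, open image,
core.
-/

namespace MP55I

open Fl49 PL55

/-- Fractional parts. -/
noncomputable def fr (x : Fin 2 → ℝ) : Fin 2 → ℝ := fun i => Int.fract (x i)

/-- The point of the torus (fundamental square) with column cuts `c, d` in the triangle `t`. -/
def XY (t : Bool) (c d : ℝ) : Fin 2 → ℝ := if t = true then ![1 - d, 1 - c] else ![1 - c, 1 - d]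

theorem ext2 {x y : Fin 2 → ℝ} (h0 : x 0 = y 0) (h1 : x 1 = y 1) : x = y := by
  ext i
  fin_cases i
  · exact h0
  · exact h1

theorem fr_fr (x : Fin 2 → ℝ) : fr (fr x) = fr x := by
  ext i
  exact Int.fract_fract _

theorem fr_eq_iff {x y : Fin 2 → ℝ} : fr x = fr y ↔ ∃ m : Fin 2 → ℤ, ∀ i, y i = x i + m i := by
  constructor
  · intro h
    have h1 : ∀ i, ∃ z : ℤ, y i - x i = z := by
      intro i
      exact Int.fract_eq_fract.mp (congrFun h i).symm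
    choose m hm using h1
    exact ⟨m, fun i => by rw [← hm i]; ring⟩
  · rintro ⟨m, hm⟩
    ext i
    show Int.fract (x i) = Int.fract (y i)
    rw [hm i, Int.fract_add_intCast]

theorem fr_mem (x : Fin 2 → ℝ) (i : Fin 2) : 0 ≤ fr x i ∧ fr x i ≤ 1 :=
  ⟨Int.fract_nonneg _, (Int.fract_lt_one _).le⟩

theorem fract_one' : Int.fract (1 : ℝ) = 0 := Int.fract_one

theorem fract_id {x : ℝ} (h0 : 0 ≤ x) (h1 : x < 1) : Int.fract x = x :=
  Int.fract_eq_self.mpr ⟨h0, h1⟩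

section

variable {ρ : Type} {lab : ρ → Finset (Fin 5)} {num : ρ → Fin 5 → ℕ}
  {od : ρ → Fin 5 → List (Fin 5)} {S : Set ρ} {rc : Bool → Fin 6 → ρ}

/-- The point with row cuts `a, b` over the point `x` of the fundamental square. -/
noncomputable def KH.kx (h : KH lab num od S rc) (a b : ℝ) (x : Fin 2 → ℝ) : X lab num od S :=
  h.kap (decide (x 0 < x 1)) a b (1 - max (x 0) (x 1)) (1 - min (x 0) (x 1))

/-- The product neighbourhood. -/
noncomputable def KH.iota0 (h : KH lab num od S rc) (z : (Fin 2 → ℝ) × (Fin 2 → ℝ)) :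
    X lab num od S := h.kx (1 - hR z.2 / 2) (1 - hW z.2 / 2) (fr z.1)

theorem KH.kx_lt (h : KH lab num od S rc) (a b : ℝ) {x : Fin 2 → ℝ} (hx : x 0 < x 1) :
    h.kx a b x = h.kap true a b (1 - x 1) (1 - x 0) := by
  unfold KH.kx
  rw [decide_eq_true hx, max_eq_right hx.le, min_eq_left hx.le]

theorem KH.kx_ge (h : KH lab num od S rc) (a b : ℝ) {x : Fin 2 → ℝ} (hx : x 1 ≤ x 0) :
    h.kx a b x = h.kap false a b (1 - x 0) (1 - x 1) := by
  unfold KH.kx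
  rw [decide_eq_false (not_lt.mpr hx), max_eq_left hx, min_eq_right hx]

theorem XY_false (c d : ℝ) : XY false c d 0 = 1 - c ∧ XY false c d 1 = 1 - d := ⟨rfl, rfl⟩

theorem XY_true (c d : ℝ) : XY true c d 0 = 1 - d ∧ XY true c d 1 = 1 - c := ⟨rfl, rfl⟩

theorem KH.kx_XY (h : KH lab num od S rc) (t : Bool) {a b c d : ℝ} (h0 : 0 ≤ a) (h1 : a ≤ b)
    (h2 : b ≤ 1) (h3 : 0 ≤ c) (h4 : c ≤ d) (h5 : d ≤ 1) :
    h.kx a b (XY t c d) = h.kap t a b c d := by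
  cases t
  · obtain ⟨e0, e1⟩ := XY_false c d
    rw [h.kx_ge a b (by rw [e0, e1]; linarith), e0, e1, sub_sub_cancel, sub_sub_cancel]
  · obtain ⟨e0, e1⟩ := XY_true c d
    rcases h4.eq_or_lt with e | e
    · subst e
      rw [h.kx_ge a b (by rw [e0, e1]), e0, e1, sub_sub_cancel,
        h.kap_diag false h0 h1 h2 h3 h5]
      rfl
    · rw [h.kx_lt a b (by rw [e0, e1]; linarith), e0, e1, sub_sub_cancel, sub_sub_cancel]

theorem KH.kap01 (h : KH lab num od S rc) (t : Bool) {a b : ℝ} (h0 : 0 ≤ a) (h1 : a ≤ b)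
    (h2 : b ≤ 1) : h.kap t a b 0 1 = h.kap false a b 0 0 := by
  rw [h.kap_col t h0 h1 h2 le_rfl zero_le_one]
  cases t
  · exact h.kap_diag true h0 h1 h2 le_rfl zero_le_one
  · rfl

theorem KH.kap11 (h : KH lab num od S rc) {a b : ℝ} (h0 : 0 ≤ a) (h1 : a ≤ b)
    (h2 : b ≤ 1) : h.kap false a b 1 1 = h.kap false a b 0 0 := by
  rw [h.kap_col false h0 h1 h2 zero_le_one le_rfl]
  exact h.kap01 _ h0 h1 h2

theorem KH.kx_one_left (h : KH lab num od S rc) {a b : ℝ} (h0 : 0 ≤ a) (h1 : a ≤ b)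
    (h2 : b ≤ 1) {x y : Fin 2 → ℝ} (hx : x 0 = 1) (hy : y 0 = 0) (e : x 1 = y 1)
    (g0 : 0 ≤ y 1) (g1 : y 1 ≤ 1) : h.kx a b x = h.kx a b y := by
  rw [h.kx_ge a b (by rw [hx, e]; exact g1), hx, e, sub_self]
  rcases g0.eq_or_lt with q | q
  · rw [h.kx_ge a b (by rw [hy, ← q]), hy, ← q, sub_zero, h.kap01 _ h0 h1 h2, h.kap11 h0 h1 h2]
  · rw [h.kx_lt a b (by rw [hy]; exact q), hy, sub_zero,
      h.kap_col true h0 h1 h2 (by linarith) (by linarith)]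
    rfl

theorem KH.kx_one_right (h : KH lab num od S rc) {a b : ℝ} (h0 : 0 ≤ a) (h1 : a ≤ b)
    (h2 : b ≤ 1) {x y : Fin 2 → ℝ} (hx : x 1 = 1) (hy : y 1 = 0) (e : x 0 = y 0)
    (g0 : 0 ≤ y 0) (g1 : y 0 ≤ 1) : h.kx a b x = h.kx a b y := by
  rw [h.kx_ge a b (x := y) (by rw [hy]; exact g0), hy, sub_zero]
  rcases g1.eq_or_lt with q | q
  · rw [h.kx_ge a b (by rw [hx, e, q]), hx, e, q, sub_self, h.kap01 _ h0 h1 h2]
  · rw [h.kx_lt a b (by rw [hx, e]; exact q), hx, e, sub_self,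
      h.kap_col false h0 h1 h2 (by linarith) (by linarith)]
    rfl

theorem KH.kx_fr (h : KH lab num od S rc) {a b : ℝ} (h0 : 0 ≤ a) (h1 : a ≤ b) (h2 : b ≤ 1)
    {x : Fin 2 → ℝ} (hx : ∀ i, 0 ≤ x i ∧ x i ≤ 1) : h.kx a b x = h.kx a b (fr x) := by
  -- first coordinate
  have s1 : h.kx a b x = h.kx a b ![Int.fract (x 0), x 1] := by
    rcases (hx 0).2.eq_or_lt with q | q
    · exact h.kx_one_left h0 h1 h2 q (by show Int.fract (x 0) = 0; rw [q]; exact Int.fract_one)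
        rfl (hx 1).1 (hx 1).2
    · have : x = ![Int.fract (x 0), x 1] := ext2 (fract_id (hx 0).1 q).symm rfl
      rw [← this]
  have s2 : h.kx a b ![Int.fract (x 0), x 1] = h.kx a b (fr x) := by
    rcases (hx 1).2.eq_or_lt with q | q
    · exact h.kx_one_right h0 h1 h2 q (by show Int.fract (x 1) = 0; rw [q]; exact Int.fract_one)
        rfl (Int.fract_nonneg _) (Int.fract_lt_one _).le
    · have : (![Int.fract (x 0), x 1] : Fin 2 → ℝ) = fr x :=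
        ext2 rfl (fract_id (hx 1).1 q).symm
      rw [this]
  rw [s1, s2]

theorem XY_mem (t : Bool) {c d : ℝ} (h3 : 0 ≤ c) (h4 : c ≤ d) (h5 : d ≤ 1) (i : Fin 2) :
    0 ≤ XY t c d i ∧ XY t c d i ≤ 1 := by
  cases t <;> fin_cases i
  · exact ⟨by show 0 ≤ 1 - c; linarith, by show 1 - c ≤ 1; linarith⟩
  · exact ⟨by show 0 ≤ 1 - d; linarith, by show 1 - d ≤ 1; linarith⟩
  · exact ⟨by show 0 ≤ 1 - d; linarith, by show 1 - d ≤ 1; linarith⟩
  · exact ⟨by show 0 ≤ 1 - c; linarith, by show 1 - c ≤ 1; linarith⟩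

/-- Every valid point is a value of `iota0`. -/
theorem KH.kap_iota (h : KH lab num od S rc) (t : Bool) {a b c d : ℝ} (h0 : 0 ≤ a) (h1 : a ≤ b)
    (h2 : b ≤ 1) (h3 : 0 ≤ c) (h4 : c ≤ d) (h5 : d ≤ 1) :
    h.kap t a b c d = h.iota0 (XY t c d, Pq (2 * (1 - a)) (2 * (1 - b))) := by
  unfold KH.iota0
  simp only
  have ha : hR (Pq (2 * (1 - a)) (2 * (1 - b))) = 2 * (1 - a) :=
    hR_Pq (by linarith) (by linarith)
  rw [ha, ← h.kx_XY t h0 h1 h2 h3 h4 h5, h.kx_fr h0 h1 h2 (XY_mem t h3 h4 h5)]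
  have e1 : 1 - 2 * (1 - a) / 2 = a := by ring
  rw [e1]
  rcases h1.eq_or_lt with e | e
  · subst e
    rw [Pq_self (by linarith)]
    rcases h2.eq_or_lt with g | g
    · subst g
      have : hW (Pq (2 * (1 - 1)) 0) = 0 := hW_zero (by rw [hR_Pq le_rfl (by norm_num)]; ring)
      rw [this]
      norm_num
    · rw [hW_Pq le_rfl (by linarith)]
      have e2 : (1 : ℝ) - 0 / 2 = 1 := by ring
      rw [e2]
      -- reduce to `kap`
      have hm := fr_mem (XY t c d)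
      unfold KH.kx
      exact h.kap_row _ h0 h2 (by linarith [max_le (hm 0).2 (hm 1).2])
        (by linarith [min_le_max (a := fr (XY t c d) 0) (b := fr (XY t c d) 1)])
        (by linarith [le_min (hm 0).1 (hm 1).1])
  · rw [hW_Pq (by linarith) (by linarith)]
    have e2 : 1 - 2 * (1 - b) / 2 = b := by ring
    rw [e2]

/-- Main lemma: the points of the twelve simplices. -/
theorem KH.pt_iota (h : KH lab num od S rc) (t : Bool) (k : Fin 6) {x : Fin 5 → ℝ}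
    (hx : x ∈ Dl (lab (rc t k))) :
    pt lab num od (rc t k) (h.mem t k) x hx =
      h.iota0 (XY t (cC k x) (cD k x), Pq (2 * (1 - cA k x)) (2 * (1 - cB k x))) := by
  have hx' := h.mem_Dl' hx
  obtain ⟨g0, g1, g2, g3, g4, g5⟩ := c_bounds hx' k
  rw [← h.kap_iota t g0 g1 g2 g3 g4 g5, ← h.kap_of_OK t (OK_c hx' k), cut_c hx'.2.2 k,
    h.Kp_eq hx]

theorem KH.iota0_eq_of (h : KH lab num od S rc) {x y : Fin 2 → ℝ} (hxy : fr x = fr y)
    (p : Fin 2 → ℝ) : h.iota0 (x, p) = h.iota0 (y, p) := by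
  unfold KH.iota0
  simp only
  rw [hxy]

/-! The inverse. -/

open Classical in
/-- The coordinates of a point of the simplex `(t, k)`. -/
noncomputable def psi (t : Bool) (k : Fin 6) (x : Fin 5 → ℝ) :
    Option ((Fin 2 → ℝ) × (Fin 2 → ℝ)) :=
  if 0 < cA k x then
    some (fr (XY t (cC k x) (cD k x)), Pq (2 * (1 - cA k x)) (2 * (1 - cB k x))) else none

theorem nb_inj {u : Bool} {k' : Fin 6} {w : Fin 5} {u1 : Bool}
    {k1 : Fin 6} {w1 : Fin 5} (hn : some (u, k', w) = some (u1, k1, w1)) :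
    u1 = u ∧ k1 = k' ∧ w1 = w := by
  simp only [Option.some.injEq, Prod.mk.injEq] at hn
  exact ⟨hn.1.symm, hn.2.1.symm, hn.2.2.symm⟩

/-- The behaviour of the cuts under the gluings. -/
theorem cuts_glue (k : Fin 6) (v : Fin 5) (u : Bool) (k' : Fin 6) (w : Fin 5)
    (hn : nbT k v = some (u, k', w)) {x y : Fin 5 → ℝ} (hx : ∑ v, x v = 1) (hy : ∑ v, y v = 1)
    (hxv : x v = 0) (hyw : y w = 0) (hxy : ∀ l, l ≠ v → x l = y (pm v w l)) :
    cA k' y = cA k x ∧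
    (cB k' y = cB k x ∨ (cB k x = cA k x ∧ cB k' y = 1) ∨ (cB k x = 1 ∧ cB k' y = cA k x)) ∧
    ((u = false ∧ cC k' y = cC k x ∧ cD k' y = cD k x) ∨
     (u = true ∧ cC k x = cD k x ∧ cC k' y = cC k x ∧ cD k' y = cC k x) ∨
     (u = true ∧ cD k x = 1 ∧ cC k' y = 0 ∧ cD k' y = cC k x) ∨
     (u = true ∧ cC k x = 0 ∧ cD k' y = 1 ∧ cC k' y = cD k x)) := by
  rw [Fin.sum_univ_five] at hx hy
  fin_cases k <;> fin_cases v
  · exact absurd hn.symm (Option.some_ne_none _)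
  · obtain ⟨rfl, rfl, rfl⟩ := nb_inj hn
    have e1 : x 1 = 0 := hxv
    have f4 : y 4 = 0 := hyw
    have e0 : x 0 = y 0 := hxy 0 (by decide)
    have e2 : x 2 = y 1 := hxy 2 (by decide)
    have e3 : x 3 = y 2 := hxy 3 (by decide)
    have e4 : x 4 = y 3 := hxy 4 (by decide)
    refine ⟨?_, Or.inr (Or.inl ⟨?_, ?_⟩), Or.inl ⟨rfl, ?_, ?_⟩⟩ <;> simp only [cA, cB, cC, cD] <;> linarith
  · obtain ⟨rfl, rfl, rfl⟩ := nb_inj hn
    have e2 : x 2 = 0 := hxv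
    have f2 : y 2 = 0 := hyw
    have e0 : x 0 = y 0 := hxy 0 (by decide)
    have e1 : x 1 = y 1 := hxy 1 (by decide)
    have e3 : x 3 = y 3 := hxy 3 (by decide)
    have e4 : x 4 = y 4 := hxy 4 (by decide)
    refine ⟨?_, Or.inl ?_, Or.inl ⟨rfl, ?_, ?_⟩⟩ <;> simp only [cA, cB, cC, cD] <;> linarith
  · obtain ⟨rfl, rfl, rfl⟩ := nb_inj hn
    have e3 : x 3 = 0 := hxv
    have f3 : y 3 = 0 := hyw
    have e0 : x 0 = y 0 := hxy 0 (by decide)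
    have e1 : x 1 = y 1 := hxy 1 (by decide)
    have e2 : x 2 = y 2 := hxy 2 (by decide)
    have e4 : x 4 = y 4 := hxy 4 (by decide)
    refine ⟨?_, Or.inl ?_, Or.inr (Or.inl ⟨rfl, ?_, ?_, ?_⟩)⟩ <;> simp only [cA, cB, cC, cD] <;> linarith
  · obtain ⟨rfl, rfl, rfl⟩ := nb_inj hn
    have e4 : x 4 = 0 := hxv
    have f0 : y 0 = 0 := hyw
    have e0 : x 0 = y 1 := hxy 0 (by decide)
    have e1 : x 1 = y 2 := hxy 1 (by decide)
    have e2 : x 2 = y 3 := hxy 2 (by decide)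
    have e3 : x 3 = y 4 := hxy 3 (by decide)
    refine ⟨?_, Or.inl ?_, Or.inr (Or.inr (Or.inl ⟨rfl, ?_, ?_, ?_⟩))⟩ <;> simp only [cA, cB, cC, cD] <;> linarith
  · exact absurd hn.symm (Option.some_ne_none _)
  · obtain ⟨rfl, rfl, rfl⟩ := nb_inj hn
    have e1 : x 1 = 0 := hxv
    have f1 : y 1 = 0 := hyw
    have e0 : x 0 = y 0 := hxy 0 (by decide)
    have e2 : x 2 = y 2 := hxy 2 (by decide)
    have e3 : x 3 = y 3 := hxy 3 (by decide)
    have e4 : x 4 = y 4 := hxy 4 (by decide)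
    refine ⟨?_, Or.inl ?_, Or.inl ⟨rfl, ?_, ?_⟩⟩ <;> simp only [cA, cB, cC, cD] <;> linarith
  · obtain ⟨rfl, rfl, rfl⟩ := nb_inj hn
    have e2 : x 2 = 0 := hxv
    have f2 : y 2 = 0 := hyw
    have e0 : x 0 = y 0 := hxy 0 (by decide)
    have e1 : x 1 = y 1 := hxy 1 (by decide)
    have e3 : x 3 = y 3 := hxy 3 (by decide)
    have e4 : x 4 = y 4 := hxy 4 (by decide)
    refine ⟨?_, Or.inl ?_, Or.inl ⟨rfl, ?_, ?_⟩⟩ <;> simp only [cA, cB, cC, cD] <;> linarith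
  · obtain ⟨rfl, rfl, rfl⟩ := nb_inj hn
    have e3 : x 3 = 0 := hxv
    have f3 : y 3 = 0 := hyw
    have e0 : x 0 = y 0 := hxy 0 (by decide)
    have e1 : x 1 = y 1 := hxy 1 (by decide)
    have e2 : x 2 = y 2 := hxy 2 (by decide)
    have e4 : x 4 = y 4 := hxy 4 (by decide)
    refine ⟨?_, Or.inl ?_, Or.inl ⟨rfl, ?_, ?_⟩⟩ <;> simp only [cA, cB, cC, cD] <;> linarith
  · obtain ⟨rfl, rfl, rfl⟩ := nb_inj hn
    have e4 : x 4 = 0 := hxv
    have f0 : y 0 = 0 := hyw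
    have e0 : x 0 = y 1 := hxy 0 (by decide)
    have e1 : x 1 = y 2 := hxy 1 (by decide)
    have e2 : x 2 = y 3 := hxy 2 (by decide)
    have e3 : x 3 = y 4 := hxy 3 (by decide)
    refine ⟨?_, Or.inl ?_, Or.inr (Or.inr (Or.inl ⟨rfl, ?_, ?_, ?_⟩))⟩ <;> simp only [cA, cB, cC, cD] <;> linarith
  · exact absurd hn.symm (Option.some_ne_none _)
  · obtain ⟨rfl, rfl, rfl⟩ := nb_inj hn
    have e1 : x 1 = 0 := hxv
    have f1 : y 1 = 0 := hyw
    have e0 : x 0 = y 0 := hxy 0 (by decide)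
    have e2 : x 2 = y 2 := hxy 2 (by decide)
    have e3 : x 3 = y 3 := hxy 3 (by decide)
    have e4 : x 4 = y 4 := hxy 4 (by decide)
    refine ⟨?_, Or.inl ?_, Or.inl ⟨rfl, ?_, ?_⟩⟩ <;> simp only [cA, cB, cC, cD] <;> linarith
  · obtain ⟨rfl, rfl, rfl⟩ := nb_inj hn
    have e2 : x 2 = 0 := hxv
    have f2 : y 2 = 0 := hyw
    have e0 : x 0 = y 0 := hxy 0 (by decide)
    have e1 : x 1 = y 1 := hxy 1 (by decide)
    have e3 : x 3 = y 3 := hxy 3 (by decide)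
    have e4 : x 4 = y 4 := hxy 4 (by decide)
    refine ⟨?_, Or.inl ?_, Or.inr (Or.inl ⟨rfl, ?_, ?_, ?_⟩)⟩ <;> simp only [cA, cB, cC, cD] <;> linarith
  · obtain ⟨rfl, rfl, rfl⟩ := nb_inj hn
    have e3 : x 3 = 0 := hxv
    have f3 : y 3 = 0 := hyw
    have e0 : x 0 = y 0 := hxy 0 (by decide)
    have e1 : x 1 = y 1 := hxy 1 (by decide)
    have e2 : x 2 = y 2 := hxy 2 (by decide)
    have e4 : x 4 = y 4 := hxy 4 (by decide)
    refine ⟨?_, Or.inl ?_, Or.inl ⟨rfl, ?_, ?_⟩⟩ <;> simp only [cA, cB, cC, cD] <;> linarith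
  · obtain ⟨rfl, rfl, rfl⟩ := nb_inj hn
    have e4 : x 4 = 0 := hxv
    have f1 : y 1 = 0 := hyw
    have e0 : x 0 = y 0 := hxy 0 (by decide)
    have e1 : x 1 = y 2 := hxy 1 (by decide)
    have e2 : x 2 = y 3 := hxy 2 (by decide)
    have e3 : x 3 = y 4 := hxy 3 (by decide)
    refine ⟨?_, Or.inr (Or.inr ⟨?_, ?_⟩), Or.inl ⟨rfl, ?_, ?_⟩⟩ <;> simp only [cA, cB, cC, cD] <;> linarith
  · obtain ⟨rfl, rfl, rfl⟩ := nb_inj hn
    have e0 : x 0 = 0 := hxv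
    have f4 : y 4 = 0 := hyw
    have e1 : x 1 = y 0 := hxy 1 (by decide)
    have e2 : x 2 = y 1 := hxy 2 (by decide)
    have e3 : x 3 = y 2 := hxy 3 (by decide)
    have e4 : x 4 = y 3 := hxy 4 (by decide)
    refine ⟨?_, Or.inl ?_, Or.inr (Or.inr (Or.inr ⟨rfl, ?_, ?_, ?_⟩))⟩ <;> simp only [cA, cB, cC, cD] <;> linarith
  · obtain ⟨rfl, rfl, rfl⟩ := nb_inj hn
    have e1 : x 1 = 0 := hxv
    have f1 : y 1 = 0 := hyw
    have e0 : x 0 = y 0 := hxy 0 (by decide)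
    have e2 : x 2 = y 2 := hxy 2 (by decide)
    have e3 : x 3 = y 3 := hxy 3 (by decide)
    have e4 : x 4 = y 4 := hxy 4 (by decide)
    refine ⟨?_, Or.inl ?_, Or.inl ⟨rfl, ?_, ?_⟩⟩ <;> simp only [cA, cB, cC, cD] <;> linarith
  · obtain ⟨rfl, rfl, rfl⟩ := nb_inj hn
    have e2 : x 2 = 0 := hxv
    have f4 : y 4 = 0 := hyw
    have e0 : x 0 = y 0 := hxy 0 (by decide)
    have e1 : x 1 = y 1 := hxy 1 (by decide)
    have e3 : x 3 = y 2 := hxy 3 (by decide)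
    have e4 : x 4 = y 3 := hxy 4 (by decide)
    refine ⟨?_, Or.inr (Or.inl ⟨?_, ?_⟩), Or.inl ⟨rfl, ?_, ?_⟩⟩ <;> simp only [cA, cB, cC, cD] <;> linarith
  · obtain ⟨rfl, rfl, rfl⟩ := nb_inj hn
    have e3 : x 3 = 0 := hxv
    have f3 : y 3 = 0 := hyw
    have e0 : x 0 = y 0 := hxy 0 (by decide)
    have e1 : x 1 = y 1 := hxy 1 (by decide)
    have e2 : x 2 = y 2 := hxy 2 (by decide)
    have e4 : x 4 = y 4 := hxy 4 (by decide)
    refine ⟨?_, Or.inl ?_, Or.inl ⟨rfl, ?_, ?_⟩⟩ <;> simp only [cA, cB, cC, cD] <;> linarith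
  · obtain ⟨rfl, rfl, rfl⟩ := nb_inj hn
    have e4 : x 4 = 0 := hxv
    have f0 : y 0 = 0 := hyw
    have e0 : x 0 = y 1 := hxy 0 (by decide)
    have e1 : x 1 = y 2 := hxy 1 (by decide)
    have e2 : x 2 = y 3 := hxy 2 (by decide)
    have e3 : x 3 = y 4 := hxy 3 (by decide)
    refine ⟨?_, Or.inl ?_, Or.inr (Or.inr (Or.inl ⟨rfl, ?_, ?_, ?_⟩))⟩ <;> simp only [cA, cB, cC, cD] <;> linarith
  · obtain ⟨rfl, rfl, rfl⟩ := nb_inj hn
    have e0 : x 0 = 0 := hxv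
    have f4 : y 4 = 0 := hyw
    have e1 : x 1 = y 0 := hxy 1 (by decide)
    have e2 : x 2 = y 1 := hxy 2 (by decide)
    have e3 : x 3 = y 2 := hxy 3 (by decide)
    have e4 : x 4 = y 3 := hxy 4 (by decide)
    refine ⟨?_, Or.inl ?_, Or.inr (Or.inr (Or.inr ⟨rfl, ?_, ?_, ?_⟩))⟩ <;> simp only [cA, cB, cC, cD] <;> linarith
  · obtain ⟨rfl, rfl, rfl⟩ := nb_inj hn
    have e1 : x 1 = 0 := hxv
    have f1 : y 1 = 0 := hyw
    have e0 : x 0 = y 0 := hxy 0 (by decide)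
    have e2 : x 2 = y 2 := hxy 2 (by decide)
    have e3 : x 3 = y 3 := hxy 3 (by decide)
    have e4 : x 4 = y 4 := hxy 4 (by decide)
    refine ⟨?_, Or.inl ?_, Or.inl ⟨rfl, ?_, ?_⟩⟩ <;> simp only [cA, cB, cC, cD] <;> linarith
  · obtain ⟨rfl, rfl, rfl⟩ := nb_inj hn
    have e2 : x 2 = 0 := hxv
    have f2 : y 2 = 0 := hyw
    have e0 : x 0 = y 0 := hxy 0 (by decide)
    have e1 : x 1 = y 1 := hxy 1 (by decide)
    have e3 : x 3 = y 3 := hxy 3 (by decide)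
    have e4 : x 4 = y 4 := hxy 4 (by decide)
    refine ⟨?_, Or.inl ?_, Or.inl ⟨rfl, ?_, ?_⟩⟩ <;> simp only [cA, cB, cC, cD] <;> linarith
  · obtain ⟨rfl, rfl, rfl⟩ := nb_inj hn
    have e3 : x 3 = 0 := hxv
    have f3 : y 3 = 0 := hyw
    have e0 : x 0 = y 0 := hxy 0 (by decide)
    have e1 : x 1 = y 1 := hxy 1 (by decide)
    have e2 : x 2 = y 2 := hxy 2 (by decide)
    have e4 : x 4 = y 4 := hxy 4 (by decide)
    refine ⟨?_, Or.inl ?_, Or.inl ⟨rfl, ?_, ?_⟩⟩ <;> simp only [cA, cB, cC, cD] <;> linarith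
  · obtain ⟨rfl, rfl, rfl⟩ := nb_inj hn
    have e4 : x 4 = 0 := hxv
    have f2 : y 2 = 0 := hyw
    have e0 : x 0 = y 0 := hxy 0 (by decide)
    have e1 : x 1 = y 1 := hxy 1 (by decide)
    have e2 : x 2 = y 3 := hxy 2 (by decide)
    have e3 : x 3 = y 4 := hxy 3 (by decide)
    refine ⟨?_, Or.inr (Or.inr ⟨?_, ?_⟩), Or.inl ⟨rfl, ?_, ?_⟩⟩ <;> simp only [cA, cB, cC, cD] <;> linarith
  · obtain ⟨rfl, rfl, rfl⟩ := nb_inj hn
    have e0 : x 0 = 0 := hxv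
    have f4 : y 4 = 0 := hyw
    have e1 : x 1 = y 0 := hxy 1 (by decide)
    have e2 : x 2 = y 1 := hxy 2 (by decide)
    have e3 : x 3 = y 2 := hxy 3 (by decide)
    have e4 : x 4 = y 3 := hxy 4 (by decide)
    refine ⟨?_, Or.inl ?_, Or.inr (Or.inr (Or.inr ⟨rfl, ?_, ?_, ?_⟩))⟩ <;> simp only [cA, cB, cC, cD] <;> linarith
  · obtain ⟨rfl, rfl, rfl⟩ := nb_inj hn
    have e1 : x 1 = 0 := hxv
    have f1 : y 1 = 0 := hyw
    have e0 : x 0 = y 0 := hxy 0 (by decide)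
    have e2 : x 2 = y 2 := hxy 2 (by decide)
    have e3 : x 3 = y 3 := hxy 3 (by decide)
    have e4 : x 4 = y 4 := hxy 4 (by decide)
    refine ⟨?_, Or.inl ?_, Or.inr (Or.inl ⟨rfl, ?_, ?_, ?_⟩)⟩ <;> simp only [cA, cB, cC, cD] <;> linarith
  · obtain ⟨rfl, rfl, rfl⟩ := nb_inj hn
    have e2 : x 2 = 0 := hxv
    have f2 : y 2 = 0 := hyw
    have e0 : x 0 = y 0 := hxy 0 (by decide)
    have e1 : x 1 = y 1 := hxy 1 (by decide)
    have e3 : x 3 = y 3 := hxy 3 (by decide)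
    have e4 : x 4 = y 4 := hxy 4 (by decide)
    refine ⟨?_, Or.inl ?_, Or.inl ⟨rfl, ?_, ?_⟩⟩ <;> simp only [cA, cB, cC, cD] <;> linarith
  · obtain ⟨rfl, rfl, rfl⟩ := nb_inj hn
    have e3 : x 3 = 0 := hxv
    have f4 : y 4 = 0 := hyw
    have e0 : x 0 = y 0 := hxy 0 (by decide)
    have e1 : x 1 = y 1 := hxy 1 (by decide)
    have e2 : x 2 = y 2 := hxy 2 (by decide)
    have e4 : x 4 = y 3 := hxy 4 (by decide)
    refine ⟨?_, Or.inr (Or.inl ⟨?_, ?_⟩), Or.inl ⟨rfl, ?_, ?_⟩⟩ <;> simp only [cA, cB, cC, cD] <;> linarith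
  · obtain ⟨rfl, rfl, rfl⟩ := nb_inj hn
    have e4 : x 4 = 0 := hxv
    have f3 : y 3 = 0 := hyw
    have e0 : x 0 = y 0 := hxy 0 (by decide)
    have e1 : x 1 = y 1 := hxy 1 (by decide)
    have e2 : x 2 = y 2 := hxy 2 (by decide)
    have e3 : x 3 = y 4 := hxy 3 (by decide)
    refine ⟨?_, Or.inr (Or.inr ⟨?_, ?_⟩), Or.inl ⟨rfl, ?_, ?_⟩⟩ <;> simp only [cA, cB, cC, cD] <;> linarith

end

end MP55I
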