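import Pool.Agent.Lib_MP_55d5ef_i.IDef

/-!
Cumulative coordinates on the staircase pentachora and the gluings: `kap t a b c d` is the
point of `D² × T²` with row cuts `a ≤ b` and column cuts `c ≤ d`.
-/

namespace MP55I

open Fl49 PL55

/-- Barycentric coordinates from the cuts. -/
def bc (s0 s1 s2 s3 : ℝ) : Fin 5 → ℝ := ![s0, s1 - s0, s2 - s1, s3 - s2, 1 - s3]

/-- Barycentric coordinates in the simplex of the word `k` of the point with row cuts `a, b`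
and column cuts `c, d`. -/
def cut (k : Fin 6) (a b c d : ℝ) : Fin 5 → ℝ :=
  match k with
  | 0 => bc a b c d
  | 1 => bc a c b d
  | 2 => bc a c d b
  | 3 => bc c a b d
  | 4 => bc c a d b
  | 5 => bc c d a b

/-- The cuts are in the order of the word `k`. -/
def OK (k : Fin 6) (a b c d : ℝ) : Prop := ∀ v, 0 ≤ cut k a b c d v

theorem bc_sum (s0 s1 s2 s3 : ℝ) : ∑ v, bc s0 s1 s2 s3 v = 1 := by
  simp only [bc, Fin.sum_univ_five, Matrix.cons_val_zero, Matrix.cons_val_one,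
    Matrix.cons_val]
  ring

theorem cut_sum (k : Fin 6) (a b c d : ℝ) : ∑ v, cut k a b c d v = 1 := by
  fin_cases k <;> exact bc_sum _ _ _ _

theorem cut_mem {k : Fin 6} {a b c d : ℝ} (h : OK k a b c d) :
    cut k a b c d ∈ Dl (Finset.univ : Finset (Fin 5)) :=
  ⟨h, fun v hv => absurd (Finset.mem_univ v) hv, cut_sum k a b c d⟩

theorem bc_nonneg {s0 s1 s2 s3 : ℝ} : (∀ v, 0 ≤ bc s0 s1 s2 s3 v) ↔
    (0 ≤ s0 ∧ s0 ≤ s1 ∧ s1 ≤ s2 ∧ s2 ≤ s3 ∧ s3 ≤ 1) := by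
  constructor
  · intro h
    have h0 := h 0
    have h1 := h 1
    have h2 := h 2
    have h3 := h 3
    have h4 := h 4
    change 0 ≤ s0 at h0
    change 0 ≤ s1 - s0 at h1
    change 0 ≤ s2 - s1 at h2
    change 0 ≤ s3 - s2 at h3
    change 0 ≤ 1 - s3 at h4
    refine ⟨?_, ?_, ?_, ?_, ?_⟩ <;> linarith
  · rintro ⟨h0, h1, h2, h3, h4⟩ v
    fin_cases v
    · exact h0
    · exact sub_nonneg.mpr h1
    · exact sub_nonneg.mpr h2
    · exact sub_nonneg.mpr h3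
    · exact sub_nonneg.mpr h4

theorem OK0 {a b c d : ℝ} : OK 0 a b c d ↔ (0 ≤ a ∧ a ≤ b ∧ b ≤ c ∧ c ≤ d ∧ d ≤ 1) := bc_nonneg
theorem OK1 {a b c d : ℝ} : OK 1 a b c d ↔ (0 ≤ a ∧ a ≤ c ∧ c ≤ b ∧ b ≤ d ∧ d ≤ 1) := bc_nonneg
theorem OK2 {a b c d : ℝ} : OK 2 a b c d ↔ (0 ≤ a ∧ a ≤ c ∧ c ≤ d ∧ d ≤ b ∧ b ≤ 1) := bc_nonneg
theorem OK3 {a b c d : ℝ} : OK 3 a b c d ↔ (0 ≤ c ∧ c ≤ a ∧ a ≤ b ∧ b ≤ d ∧ d ≤ 1) := bc_nonneg
theorem OK4 {a b c d : ℝ} : OK 4 a b c d ↔ (0 ≤ c ∧ c ≤ a ∧ a ≤ d ∧ d ≤ b ∧ b ≤ 1) := bc_nonneg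
theorem OK5 {a b c d : ℝ} : OK 5 a b c d ↔ (0 ≤ c ∧ c ≤ d ∧ d ≤ a ∧ a ≤ b ∧ b ≤ 1) := bc_nonneg

/-- The first row cut. -/
def cA (k : Fin 6) (x : Fin 5 → ℝ) : ℝ :=
  match k with
  | 0 => x 0
  | 1 => x 0
  | 2 => x 0
  | 3 => x 0 + x 1
  | 4 => x 0 + x 1
  | 5 => x 0 + x 1 + x 2

/-- The second row cut. -/
def cB (k : Fin 6) (x : Fin 5 → ℝ) : ℝ :=
  match k with
  | 0 => x 0 + x 1
  | 1 => x 0 + x 1 + x 2
  | 2 => x 0 + x 1 + x 2 + x 3
  | 3 => x 0 + x 1 + x 2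
  | 4 => x 0 + x 1 + x 2 + x 3
  | 5 => x 0 + x 1 + x 2 + x 3

/-- The first column cut. -/
def cC (k : Fin 6) (x : Fin 5 → ℝ) : ℝ :=
  match k with
  | 0 => x 0 + x 1 + x 2
  | 1 => x 0 + x 1
  | 2 => x 0 + x 1
  | 3 => x 0
  | 4 => x 0
  | 5 => x 0

/-- The second column cut. -/
def cD (k : Fin 6) (x : Fin 5 → ℝ) : ℝ :=
  match k with
  | 0 => x 0 + x 1 + x 2 + x 3
  | 1 => x 0 + x 1 + x 2 + x 3
  | 2 => x 0 + x 1 + x 2
  | 3 => x 0 + x 1 + x 2 + x 3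
  | 4 => x 0 + x 1 + x 2
  | 5 => x 0 + x 1

theorem bc_eq {x : Fin 5 → ℝ} (h : ∑ v, x v = 1) {s0 s1 s2 s3 : ℝ} (h0 : s0 = x 0)
    (h1 : s1 = x 0 + x 1) (h2 : s2 = x 0 + x 1 + x 2) (h3 : s3 = x 0 + x 1 + x 2 + x 3) :
    bc s0 s1 s2 s3 = x := by
  rw [Fin.sum_univ_five] at h
  funext v
  fin_cases v
  · exact h0
  · show s1 - s0 = x 1; linarith
  · show s2 - s1 = x 2; linarith
  · show s3 - s2 = x 3; linarith
  · show 1 - s3 = x 4; linarith

theorem cut_c {x : Fin 5 → ℝ} (h : ∑ v, x v = 1) (k : Fin 6) :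
    cut k (cA k x) (cB k x) (cC k x) (cD k x) = x := by
  fin_cases k <;> exact bc_eq h rfl rfl rfl rfl

theorem bc_s (s0 s1 s2 s3 : ℝ) : bc s0 s1 s2 s3 0 = s0 ∧ bc s0 s1 s2 s3 0 + bc s0 s1 s2 s3 1 = s1 ∧
    bc s0 s1 s2 s3 0 + bc s0 s1 s2 s3 1 + bc s0 s1 s2 s3 2 = s2 ∧
    bc s0 s1 s2 s3 0 + bc s0 s1 s2 s3 1 + bc s0 s1 s2 s3 2 + bc s0 s1 s2 s3 3 = s3 := by
  refine ⟨rfl, ?_, ?_, ?_⟩
  · show s0 + (s1 - s0) = s1; ring
  · show s0 + (s1 - s0) + (s2 - s1) = s2; ring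
  · show s0 + (s1 - s0) + (s2 - s1) + (s3 - s2) = s3; ring

theorem c_cut (k : Fin 6) (a b c d : ℝ) : cA k (cut k a b c d) = a ∧ cB k (cut k a b c d) = b ∧
    cC k (cut k a b c d) = c ∧ cD k (cut k a b c d) = d := by
  fin_cases k
  · obtain ⟨h0, h1, h2, h3⟩ := bc_s a b c d; exact ⟨h0, h1, h2, h3⟩
  · obtain ⟨h0, h1, h2, h3⟩ := bc_s a c b d; exact ⟨h0, h2, h1, h3⟩
  · obtain ⟨h0, h1, h2, h3⟩ := bc_s a c d b; exact ⟨h0, h3, h1, h2⟩
  · obtain ⟨h0, h1, h2, h3⟩ := bc_s c a b d; exact ⟨h1, h2, h0, h3⟩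
  · obtain ⟨h0, h1, h2, h3⟩ := bc_s c a d b; exact ⟨h1, h3, h0, h2⟩
  · obtain ⟨h0, h1, h2, h3⟩ := bc_s c d a b; exact ⟨h2, h3, h0, h1⟩

/-- Bounds for the cuts of a point of the simplex. -/
theorem c_bounds {x : Fin 5 → ℝ} (h : x ∈ Dl (Finset.univ : Finset (Fin 5))) (k : Fin 6) :
    0 ≤ cA k x ∧ cA k x ≤ cB k x ∧ cB k x ≤ 1 ∧ 0 ≤ cC k x ∧ cC k x ≤ cD k x ∧ cD k x ≤ 1 := by
  obtain ⟨h1, _, h2⟩ := h
  rw [Fin.sum_univ_five] at h2
  have e0 := h1 0
  have e1 := h1 1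
  have e2 := h1 2
  have e3 := h1 3
  have e4 := h1 4
  fin_cases k <;> simp only [cA, cB, cC, cD] <;> refine ⟨?_, ?_, ?_, ?_, ?_, ?_⟩ <;> linarith

theorem OK_bounds {k : Fin 6} {a b c d : ℝ} (h : OK k a b c d) :
    0 ≤ a ∧ a ≤ b ∧ b ≤ 1 ∧ 0 ≤ c ∧ c ≤ d ∧ d ≤ 1 := by
  have := c_bounds (cut_mem h) k
  obtain ⟨e1, e2, e3, e4⟩ := c_cut k a b c d
  rw [e1, e2, e3, e4] at this
  exact this

theorem OK_c {x : Fin 5 → ℝ} (h : x ∈ Dl (Finset.univ : Finset (Fin 5))) (k : Fin 6) :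
    OK k (cA k x) (cB k x) (cC k x) (cD k x) := by
  intro v
  rw [cut_c h.2.2 k]
  exact h.1 v

section glue

variable {ρ : Type} {lab : ρ → Finset (Fin 5)} {num : ρ → Fin 5 → ℕ}
  {od : ρ → Fin 5 → List (Fin 5)} {S : Set ρ} {rc : Bool → Fin 6 → ρ}

theorem KH.mem_Dl (h : KH lab num od S rc) {t : Bool} {k : Fin 6} {x : Fin 5 → ℝ}
    (hx : x ∈ Dl (Finset.univ : Finset (Fin 5))) : x ∈ Dl (lab (rc t k)) := by
  rw [h.hlab]; exact hx

theorem KH.mem_Dl' (h : KH lab num od S rc) {t : Bool} {k : Fin 6} {x : Fin 5 → ℝ}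
    (hx : x ∈ Dl (lab (rc t k))) : x ∈ Dl (Finset.univ : Finset (Fin 5)) := by
  rw [h.hlab] at hx; exact hx

/-- A base point. -/
noncomputable def KH.base (h : KH lab num od S rc) : X lab num od S :=
  pt lab num od (rc false 0) (h.mem false 0) (cut 0 1 1 1 1)
    (h.mem_Dl (cut_mem (OK0.mpr (by norm_num))))

/-- The point with coordinates `x` in the record `(t, k)`. -/
noncomputable def KH.Kp (h : KH lab num od S rc) (t : Bool) (k : Fin 6) (x : Fin 5 → ℝ) :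
    X lab num od S := chart lab num od S h.base ⟨rc t k, h.mem t k⟩ x

theorem KH.Kp_eq (h : KH lab num od S rc) {t : Bool} {k : Fin 6} {x : Fin 5 → ℝ}
    (hx : x ∈ Dl (lab (rc t k))) :
    h.Kp t k x = pt lab num od (rc t k) (h.mem t k) x hx := by
  unfold KH.Kp chart
  rw [dif_pos hx]

theorem KH.glue (h : KH lab num od S rc) (t : Bool) (k : Fin 6) (v : Fin 5) (u : Bool)
    (k' : Fin 6) (w : Fin 5) (hn : nbT k v = some (u, k', w)) {x y : Fin 5 → ℝ}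
    (hx : ∀ v, 0 ≤ x v) (hx1 : ∑ v, x v = 1) (hy : ∀ v, 0 ≤ y v) (hy1 : ∑ v, y v = 1)
    (hxv : x v = 0) (hyw : y w = 0) (hxy : ∀ l, l ≠ v → x l = y (pm v w l)) :
    h.Kp t k x = h.Kp (xor t u) k' y := by
  have hx' : x ∈ Dl (lab (rc t k)) :=
    h.mem_Dl ⟨hx, fun v hv => absurd (Finset.mem_univ v) hv, hx1⟩
  have hy' : y ∈ Dl (lab (rc (xor t u) k')) :=
    h.mem_Dl ⟨hy, fun v hv => absurd (Finset.mem_univ v) hv, hy1⟩
  rw [h.Kp_eq hx', h.Kp_eq hy']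
  obtain ⟨h1, h2⟩ := h.hnum t k v u k' w hn
  refine pt_glue (v := v) (w := w) _ _ _ _ ?_ ?_ h1 hxv hyw ?_
  · rw [h.hlab]; exact Finset.mem_univ _
  · rw [h.hlab]; exact Finset.mem_univ _
  · rw [h2, List.map_map]
    exact List.map_congr_left fun l hl => hxy l (h.odl t k v l hl)

theorem pm_self : ∀ v l : Fin 5, l ≠ v → pm v v l = l := by decide

/-- Change of the word at a tie. -/
theorem KH.swap (h : KH lab num od S rc) (t : Bool) (k k' : Fin 6) (v : Fin 5)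
    (hn : nbT k v = some (false, k', v)) {x y : Fin 5 → ℝ}
    (hx : ∀ v, 0 ≤ x v) (hx1 : ∑ v, x v = 1) (hxv : x v = 0) (hxy : x = y) :
    h.Kp t k x = h.Kp t k' y := by
  subst hxy
  have := h.glue t k v false k' v hn hx hx1 hx hx1 hxv hxv (by
    intro l hl
    rw [pm_self v l hl])
  rwa [Bool.xor_false] at this

open Classical in
/-- The point of `D² × T²` with row cuts `a, b` and column cuts `c, d`. -/
noncomputable def KH.kap (h : KH lab num od S rc) (t : Bool) (a b c d : ℝ) : X lab num od S :=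
  if b ≤ c then h.Kp t 0 (cut 0 a b c d) else
  if a ≤ c then (if b ≤ d then h.Kp t 1 (cut 1 a b c d) else h.Kp t 2 (cut 2 a b c d)) else
  if b ≤ d then h.Kp t 3 (cut 3 a b c d) else
  if a ≤ d then h.Kp t 4 (cut 4 a b c d) else h.Kp t 5 (cut 5 a b c d)

/-- For every valid choice there is a word. -/
theorem KH.kap_cases (h : KH lab num od S rc) (t : Bool) {a b c d : ℝ} (h0 : 0 ≤ a) (h1 : a ≤ b)
    (h2 : b ≤ 1) (h3 : 0 ≤ c) (h4 : c ≤ d) (h5 : d ≤ 1) :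
    ∃ k, OK k a b c d ∧ h.kap t a b c d = h.Kp t k (cut k a b c d) := by
  unfold KH.kap
  split_ifs with e1 e2 e3 e4 e5
  · exact ⟨0, OK0.mpr ⟨h0, h1, e1, h4, h5⟩, rfl⟩
  · exact ⟨1, OK1.mpr ⟨h0, e2, by linarith, e3, h5⟩, rfl⟩
  · exact ⟨2, OK2.mpr ⟨h0, e2, h4, by linarith, h2⟩, rfl⟩
  · exact ⟨3, OK3.mpr ⟨h3, by linarith, h1, e4, h5⟩, rfl⟩
  · exact ⟨4, OK4.mpr ⟨h3, by linarith, e5, by linarith, h2⟩, rfl⟩
  · exact ⟨5, OK5.mpr ⟨h3, h4, by linarith, h1, h2⟩, rfl⟩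

theorem KH.sw01 (h : KH lab num od S rc) (t : Bool) {a b c d : ℝ} (hk : OK 0 a b c d)
    (e : b = c) : h.Kp t 0 (cut 0 a b c d) = h.Kp t 1 (cut 1 a b c d) :=
  h.swap t 0 1 2 rfl hk (cut_sum _ _ _ _ _) (by show c - b = 0; linarith) (by subst e; rfl)

theorem KH.sw12 (h : KH lab num od S rc) (t : Bool) {a b c d : ℝ} (hk : OK 1 a b c d)
    (e : b = d) : h.Kp t 1 (cut 1 a b c d) = h.Kp t 2 (cut 2 a b c d) :=
  h.swap t 1 2 3 rfl hk (cut_sum _ _ _ _ _) (by show d - b = 0; linarith) (by subst e; rfl)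

theorem KH.sw13 (h : KH lab num od S rc) (t : Bool) {a b c d : ℝ} (hk : OK 1 a b c d)
    (e : a = c) : h.Kp t 1 (cut 1 a b c d) = h.Kp t 3 (cut 3 a b c d) :=
  h.swap t 1 3 1 rfl hk (cut_sum _ _ _ _ _) (by show c - a = 0; linarith) (by subst e; rfl)

theorem KH.sw24 (h : KH lab num od S rc) (t : Bool) {a b c d : ℝ} (hk : OK 2 a b c d)
    (e : a = c) : h.Kp t 2 (cut 2 a b c d) = h.Kp t 4 (cut 4 a b c d) :=
  h.swap t 2 4 1 rfl hk (cut_sum _ _ _ _ _) (by show c - a = 0; linarith) (by subst e; rfl)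

theorem KH.sw34 (h : KH lab num od S rc) (t : Bool) {a b c d : ℝ} (hk : OK 3 a b c d)
    (e : b = d) : h.Kp t 3 (cut 3 a b c d) = h.Kp t 4 (cut 4 a b c d) :=
  h.swap t 3 4 3 rfl hk (cut_sum _ _ _ _ _) (by show d - b = 0; linarith) (by subst e; rfl)

theorem KH.sw45 (h : KH lab num od S rc) (t : Bool) {a b c d : ℝ} (hk : OK 4 a b c d)
    (e : a = d) : h.Kp t 4 (cut 4 a b c d) = h.Kp t 5 (cut 5 a b c d) :=
  h.swap t 4 5 2 rfl hk (cut_sum _ _ _ _ _) (by show d - a = 0; linarith) (by subst e; rfl)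

/-- All valid words give the same point. -/
theorem KH.kap_of_OK (h : KH lab num od S rc) (t : Bool) {k : Fin 6} {a b c d : ℝ}
    (hk : OK k a b c d) : h.Kp t k (cut k a b c d) = h.kap t a b c d := by
  -- reduce to ties
  have t10 : OK 1 a b c d → b ≤ c → h.Kp t 1 (cut 1 a b c d) = h.Kp t 0 (cut 0 a b c d) := by
    intro h1 hh
    obtain ⟨a1, a2, a3, a4, a5⟩ := OK1.mp h1
    exact (h.sw01 t (OK0.mpr ⟨a1, by linarith, hh, by linarith, a5⟩) (by linarith)).symm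
  have t21 : OK 2 a b c d → b ≤ d → h.Kp t 2 (cut 2 a b c d) = h.Kp t 1 (cut 1 a b c d) := by
    intro h1 hh
    obtain ⟨a1, a2, a3, a4, a5⟩ := OK2.mp h1
    exact (h.sw12 t (OK1.mpr ⟨a1, by linarith, by linarith, hh, by linarith⟩)
      (by linarith)).symm
  have t31 : OK 3 a b c d → a ≤ c → h.Kp t 3 (cut 3 a b c d) = h.Kp t 1 (cut 1 a b c d) := by
    intro h1 hh
    obtain ⟨a1, a2, a3, a4, a5⟩ := OK3.mp h1
    exact (h.sw13 t (OK1.mpr ⟨by linarith, hh, by linarith, by linarith, by linarith⟩)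
      (by linarith)).symm
  have t42 : OK 4 a b c d → a ≤ c → h.Kp t 4 (cut 4 a b c d) = h.Kp t 2 (cut 2 a b c d) := by
    intro h1 hh
    obtain ⟨a1, a2, a3, a4, a5⟩ := OK4.mp h1
    exact (h.sw24 t (OK2.mpr ⟨by linarith, hh, by linarith, by linarith, by linarith⟩)
      (by linarith)).symm
  have t43 : OK 4 a b c d → b ≤ d → h.Kp t 4 (cut 4 a b c d) = h.Kp t 3 (cut 3 a b c d) := by
    intro h1 hh
    obtain ⟨a1, a2, a3, a4, a5⟩ := OK4.mp h1
    exact (h.sw34 t (OK3.mpr ⟨by linarith, by linarith, by linarith, hh, by linarith⟩)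
      (by linarith)).symm
  have t54 : OK 5 a b c d → a ≤ d → h.Kp t 5 (cut 5 a b c d) = h.Kp t 4 (cut 4 a b c d) := by
    intro h1 hh
    obtain ⟨a1, a2, a3, a4, a5⟩ := OK5.mp h1
    exact (h.sw45 t (OK4.mpr ⟨by linarith, by linarith, by linarith, by linarith, by linarith⟩)
      (by linarith)).symm
  have w1 : OK 2 a b c d → b ≤ d → OK 1 a b c d := by
    intro h1 hh
    obtain ⟨a1, a2, a3, a4, a5⟩ := OK2.mp h1
    exact OK1.mpr ⟨a1, by linarith, by linarith, hh, by linarith⟩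
  have w2 : OK 3 a b c d → a ≤ c → OK 1 a b c d := by
    intro h1 hh
    obtain ⟨a1, a2, a3, a4, a5⟩ := OK3.mp h1
    exact OK1.mpr ⟨by linarith, hh, by linarith, by linarith, by linarith⟩
  have w3 : OK 4 a b c d → a ≤ c → OK 2 a b c d := by
    intro h1 hh
    obtain ⟨a1, a2, a3, a4, a5⟩ := OK4.mp h1
    exact OK2.mpr ⟨by linarith, hh, by linarith, by linarith, by linarith⟩
  have w4 : OK 4 a b c d → b ≤ d → OK 3 a b c d := by
    intro h1 hh
    obtain ⟨a1, a2, a3, a4, a5⟩ := OK4.mp h1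
    exact OK3.mpr ⟨by linarith, by linarith, by linarith, hh, by linarith⟩
  have w5 : OK 5 a b c d → a ≤ d → OK 4 a b c d := by
    intro h1 hh
    obtain ⟨a1, a2, a3, a4, a5⟩ := OK5.mp h1
    exact OK4.mpr ⟨by linarith, by linarith, by linarith, by linarith, by linarith⟩
  have r1 : OK 1 a b c d → h.Kp t 1 (cut 1 a b c d) = h.kap t a b c d := by
    intro hk
    obtain ⟨a1, a2, a3, a4, a5⟩ := OK1.mp hk
    unfold KH.kap
    by_cases hh : b ≤ c
    · rw [if_pos hh]; exact t10 hk hh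
    · rw [if_neg hh, if_pos a2, if_pos a4]
  have r2 : OK 2 a b c d → h.Kp t 2 (cut 2 a b c d) = h.kap t a b c d := by
    intro hk
    obtain ⟨a1, a2, a3, a4, a5⟩ := OK2.mp hk
    by_cases hh : b ≤ d
    · rw [t21 hk hh]; exact r1 (w1 hk hh)
    · unfold KH.kap
      rw [if_neg (by linarith), if_pos a2, if_neg hh]
  have r3 : OK 3 a b c d → h.Kp t 3 (cut 3 a b c d) = h.kap t a b c d := by
    intro hk
    obtain ⟨a1, a2, a3, a4, a5⟩ := OK3.mp hk
    by_cases hh : a ≤ c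
    · rw [t31 hk hh]; exact r1 (w2 hk hh)
    · unfold KH.kap
      rw [if_neg (by linarith), if_neg hh, if_pos a4]
  have r4 : OK 4 a b c d → h.Kp t 4 (cut 4 a b c d) = h.kap t a b c d := by
    intro hk
    obtain ⟨a1, a2, a3, a4, a5⟩ := OK4.mp hk
    by_cases hh : a ≤ c
    · rw [t42 hk hh]; exact r2 (w3 hk hh)
    · by_cases hh2 : b ≤ d
      · rw [t43 hk hh2]; exact r3 (w4 hk hh2)
      · unfold KH.kap
        rw [if_neg (by linarith), if_neg hh, if_neg hh2, if_pos a3]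
  have r5 : OK 5 a b c d → h.Kp t 5 (cut 5 a b c d) = h.kap t a b c d := by
    intro hk
    obtain ⟨a1, a2, a3, a4, a5⟩ := OK5.mp hk
    by_cases hh : a ≤ d
    · rw [t54 hk hh]; exact r4 (w5 hk hh)
    · unfold KH.kap
      rw [if_neg (by linarith), if_neg (by linarith), if_neg (by linarith), if_neg hh]
  have r0 : OK 0 a b c d → h.Kp t 0 (cut 0 a b c d) = h.kap t a b c d := by
    intro hk
    obtain ⟨a1, a2, a3, a4, a5⟩ := OK0.mp hk
    unfold KH.kap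
    rw [if_pos a3]
  fin_cases k
  · exact r0 hk
  · exact r1 hk
  · exact r2 hk
  · exact r3 hk
  · exact r4 hk
  · exact r5 hk

/-- `θ = 1` is `θ = 0` in the disc. -/
theorem KH.kap_row (h : KH lab num od S rc) (t : Bool) {a c d : ℝ} (h0 : 0 ≤ a) (h2 : a ≤ 1)
    (h3 : 0 ≤ c) (h4 : c ≤ d) (h5 : d ≤ 1) : h.kap t a a c d = h.kap t a 1 c d := by
  rcases le_total a c with e | e
  · have k1 : OK 0 a a c d := OK0.mpr ⟨h0, le_rfl, e, h4, h5⟩
    have k2 : OK 2 a 1 c d := OK2.mpr ⟨h0, e, h4, h5, le_rfl⟩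
    rw [← h.kap_of_OK t k1, ← h.kap_of_OK t k2]
    have := h.glue t 0 1 false 2 4 rfl k1 (cut_sum _ _ _ _ _) k2 (cut_sum _ _ _ _ _)
      (by show a - a = 0; ring) (by show (1 : ℝ) - 1 = 0; ring) (by
        intro l hl
        fin_cases l
        · rfl
        · exact absurd rfl hl
        · rfl
        · rfl
        · rfl)
    rwa [Bool.xor_false] at this
  · rcases le_total a d with e2 | e2
    · have k1 : OK 3 a a c d := OK3.mpr ⟨h3, e, le_rfl, e2, h5⟩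
      have k2 : OK 4 a 1 c d := OK4.mpr ⟨h3, e, e2, h5, le_rfl⟩
      rw [← h.kap_of_OK t k1, ← h.kap_of_OK t k2]
      have := h.glue t 3 2 false 4 4 rfl k1 (cut_sum _ _ _ _ _) k2 (cut_sum _ _ _ _ _)
        (by show a - a = 0; ring) (by show (1 : ℝ) - 1 = 0; ring) (by
          intro l hl
          fin_cases l
          · rfl
          · rfl
          · exact absurd rfl hl
          · rfl
          · rfl)
      rwa [Bool.xor_false] at this
    · have k1 : OK 5 a a c d := OK5.mpr ⟨h3, h4, e2, le_rfl, h2⟩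
      have k2 : OK 5 a 1 c d := OK5.mpr ⟨h3, h4, e2, h2, le_rfl⟩
      rw [← h.kap_of_OK t k1, ← h.kap_of_OK t k2]
      have := h.glue t 5 3 false 5 4 rfl k1 (cut_sum _ _ _ _ _) k2 (cut_sum _ _ _ _ _)
        (by show a - a = 0; ring) (by show (1 : ℝ) - 1 = 0; ring) (by
          intro l hl
          fin_cases l
          · rfl
          · rfl
          · rfl
          · exact absurd rfl hl
          · rfl)
      rwa [Bool.xor_false] at this

/-- The diagonal of the torus. -/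
theorem KH.kap_diag (h : KH lab num od S rc) (t : Bool) {a b c : ℝ} (h0 : 0 ≤ a) (h1 : a ≤ b)
    (h2 : b ≤ 1) (h3 : 0 ≤ c) (h5 : c ≤ 1) : h.kap t a b c c = h.kap (!t) a b c c := by
  have hx : xor t true = !t := by cases t <;> rfl
  rcases le_total b c with e | e
  · have k1 : OK 0 a b c c := OK0.mpr ⟨h0, h1, e, le_rfl, h5⟩
    rw [← h.kap_of_OK t k1, ← h.kap_of_OK (!t) k1]
    have := h.glue t 0 3 true 0 3 rfl k1 (cut_sum _ _ _ _ _) k1 (cut_sum _ _ _ _ _)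
      (by show c - c = 0; ring) (by show c - c = 0; ring) (by
        intro l hl
        fin_cases l
        · rfl
        · rfl
        · rfl
        · exact absurd rfl hl
        · rfl)
    rwa [hx] at this
  · rcases le_total a c with e2 | e2
    · have k1 : OK 2 a b c c := OK2.mpr ⟨h0, e2, le_rfl, e, h2⟩
      rw [← h.kap_of_OK t k1, ← h.kap_of_OK (!t) k1]
      have := h.glue t 2 2 true 2 2 rfl k1 (cut_sum _ _ _ _ _) k1 (cut_sum _ _ _ _ _)
        (by show c - c = 0; ring) (by show c - c = 0; ring) (by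
          intro l hl
          fin_cases l
          · rfl
          · rfl
          · exact absurd rfl hl
          · rfl
          · rfl)
      rwa [hx] at this
    · have k1 : OK 5 a b c c := OK5.mpr ⟨h3, le_rfl, e2, h1, h2⟩
      rw [← h.kap_of_OK t k1, ← h.kap_of_OK (!t) k1]
      have := h.glue t 5 1 true 5 1 rfl k1 (cut_sum _ _ _ _ _) k1 (cut_sum _ _ _ _ _)
        (by show c - c = 0; ring) (by show c - c = 0; ring) (by
          intro l hl
          fin_cases l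
          · rfl
          · exact absurd rfl hl
          · rfl
          · rfl
          · rfl)
      rwa [hx] at this

/-- The sides of the torus. -/
theorem KH.kap_col (h : KH lab num od S rc) (t : Bool) {a b c : ℝ} (h0 : 0 ≤ a) (h1 : a ≤ b)
    (h2 : b ≤ 1) (h3 : 0 ≤ c) (h5 : c ≤ 1) : h.kap t a b c 1 = h.kap (!t) a b 0 c := by
  have hx : xor t true = !t := by cases t <;> rfl
  rcases le_total b c with e | e
  · have k1 : OK 0 a b c 1 := OK0.mpr ⟨h0, h1, e, h5, le_rfl⟩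
    have k2 : OK 3 a b 0 c := OK3.mpr ⟨le_rfl, h0, h1, e, h5⟩
    rw [← h.kap_of_OK t k1, ← h.kap_of_OK (!t) k2]
    have := h.glue t 0 4 true 3 0 rfl k1 (cut_sum _ _ _ _ _) k2 (cut_sum _ _ _ _ _)
      (by show (1 : ℝ) - 1 = 0; ring) (by show (0 : ℝ) = 0; rfl) (by
        intro l hl
        fin_cases l
        · show a = a - 0; ring
        · rfl
        · rfl
        · rfl
        · exact absurd rfl hl)
    rwa [hx] at this
  · rcases le_total a c with e2 | e2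
    · have k1 : OK 1 a b c 1 := OK1.mpr ⟨h0, e2, e, h2, le_rfl⟩
      have k2 : OK 4 a b 0 c := OK4.mpr ⟨le_rfl, h0, e2, e, h2⟩
      rw [← h.kap_of_OK t k1, ← h.kap_of_OK (!t) k2]
      have := h.glue t 1 4 true 4 0 rfl k1 (cut_sum _ _ _ _ _) k2 (cut_sum _ _ _ _ _)
        (by show (1 : ℝ) - 1 = 0; ring) (by show (0 : ℝ) = 0; rfl) (by
          intro l hl
          fin_cases l
          · show a = a - 0; ring
          · rfl
          · rfl
          · rfl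
          · exact absurd rfl hl)
      rwa [hx] at this
    · have k1 : OK 3 a b c 1 := OK3.mpr ⟨h3, e2, h1, h2, le_rfl⟩
      have k2 : OK 5 a b 0 c := OK5.mpr ⟨le_rfl, h3, e2, h1, h2⟩
      rw [← h.kap_of_OK t k1, ← h.kap_of_OK (!t) k2]
      have := h.glue t 3 4 true 5 0 rfl k1 (cut_sum _ _ _ _ _) k2 (cut_sum _ _ _ _ _)
        (by show (1 : ℝ) - 1 = 0; ring) (by show (0 : ℝ) = 0; rfl) (by
          intro l hl
          fin_cases l
          · show c = c - 0; ring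
          · rfl
          · rfl
          · rfl
          · exact absurd rfl hl)
      rwa [hx] at this

end glue

end MP55I
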