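import Pool.Agent.Lib_MP_55d5ef_i.IIot
import Pool.Agent.Lib_MP_55d5ef_pl.Stmt

/-!
The inverse `PsiX` of the product neighbourhood; injectivity, open image, core.
-/

namespace MP55I

open Fl49 PL55

/-- Equality of the torus coordinates under the gluings. -/
theorem fr_XY_glue {t u : Bool} {c d c' d' : ℝ}
    (h : (u = false ∧ c' = c ∧ d' = d) ∨ (u = true ∧ c = d ∧ c' = c ∧ d' = c) ∨
      (u = true ∧ d = 1 ∧ c' = 0 ∧ d' = c) ∨ (u = true ∧ c = 0 ∧ d' = 1 ∧ c' = d)) :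
    fr (XY (xor t u) c' d') = fr (XY t c d) := by
  have f1 : Int.fract (1 - 1 : ℝ) = 0 := by rw [sub_self]; exact Int.fract_zero
  have f2 : Int.fract (1 - 0 : ℝ) = 0 := by rw [sub_zero]; exact Int.fract_one
  rcases h with ⟨rfl, rfl, rfl⟩ | ⟨rfl, rfl, rfl, rfl⟩ | ⟨rfl, rfl, rfl, rfl⟩ | ⟨rfl, rfl, rfl, rfl⟩
  · rw [Bool.xor_false]
  · cases t <;> rfl
  · cases t
    · refine ext2 rfl ?_
      show Int.fract (1 - 0 : ℝ) = Int.fract (1 - 1 : ℝ)
      rw [f1, f2]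
    · refine ext2 ?_ rfl
      show Int.fract (1 - 0 : ℝ) = Int.fract (1 - 1 : ℝ)
      rw [f1, f2]
  · cases t
    · refine ext2 ?_ rfl
      show Int.fract (1 - 1 : ℝ) = Int.fract (1 - 0 : ℝ)
      rw [f1, f2]
    · refine ext2 rfl ?_
      show Int.fract (1 - 1 : ℝ) = Int.fract (1 - 0 : ℝ)
      rw [f1, f2]

theorem psi_glue {t : Bool} {k : Fin 6} {v : Fin 5} {u : Bool}
    {k' : Fin 6} {w : Fin 5} (hn : nbT k v = some (u, k', w)) {x y : Fin 5 → ℝ}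
    (hx : x ∈ Dl (Finset.univ : Finset (Fin 5))) (hy : y ∈ Dl (Finset.univ : Finset (Fin 5)))
    (hxv : x v = 0) (hyw : y w = 0) (hxy : ∀ l, l ≠ v → x l = y (pm v w l)) :
    psi (xor t u) k' y = psi t k x := by
  obtain ⟨h1, h2, h3⟩ := cuts_glue k v u k' w hn hx.2.2 hy.2.2 hxv hyw hxy
  obtain ⟨g0, g1, g2, _⟩ := c_bounds hx k
  unfold psi
  rw [h1, fr_XY_glue h3]
  have e : Pq (2 * (1 - cA k x)) (2 * (1 - cB k' y)) = Pq (2 * (1 - cA k x)) (2 * (1 - cB k x)) := by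
    rcases h2 with h2 | ⟨h2, h2'⟩ | ⟨h2, h2'⟩
    · rw [h2]
    · rw [h2, h2', Pq_self (by linarith)]
      norm_num
    · rw [h2, h2', Pq_self (by linarith)]
      norm_num
  rw [e]

section

variable {ρ : Type} {lab : ρ → Finset (Fin 5)} {num : ρ → Fin 5 → ℕ}
  {od : ρ → Fin 5 → List (Fin 5)} {S : Set ρ} {rc : Bool → Fin 6 → ρ}

open Classical in
/-- The inverse on the disjoint union. -/
noncomputable def PsiZ (rc : Bool → Fin 6 → ρ) (p : Z lab S) :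
    Option ((Fin 2 → ℝ) × (Fin 2 → ℝ)) :=
  if hp : ∃ q : Bool × Fin 6, (p.1 : ρ) = rc q.1 q.2 then
    psi hp.choose.1 hp.choose.2 p.2 else none

theorem KH.PsiZ_eq (h : KH lab num od S rc) (t : Bool) (k : Fin 6) (i : S)
    (hi : (i : ρ) = rc t k) (x : Dl (lab i)) : PsiZ rc (⟨i, x⟩ : Z lab S) = psi t k x := by
  unfold PsiZ
  have hp : ∃ q : Bool × Fin 6, (i : ρ) = rc q.1 q.2 := ⟨(t, k), hi⟩
  rw [dif_pos hp]
  obtain ⟨h1, h2⟩ := h.inj _ _ _ _ (hp.choose_spec.symm.trans hi)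
  rw [h1, h2]

/-- The gluing relation seen from one of the twelve simplices. -/
theorem KH.rg_cases (h : KH lab num od S rc) {p q : Z lab S} (hr : Rg lab num od S p q)
    {t : Bool} {k : Fin 6} (hp : (p.1 : ρ) = rc t k) :
    ((q.1 : ρ) = rc t k ∧ (q.2 : Fin 5 → ℝ) = p.2) ∨
    (∃ (v : Fin 5) (u : Bool) (k' : Fin 6) (w : Fin 5), nbT k v = some (u, k', w) ∧
      (q.1 : ρ) = rc (xor t u) k' ∧ (p.2 : Fin 5 → ℝ) v = 0 ∧ (q.2 : Fin 5 → ℝ) w = 0 ∧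
      ∀ l, l ≠ v → (p.2 : Fin 5 → ℝ) l = (q.2 : Fin 5 → ℝ) (pm v w l)) ∨
    ((∃ v : Fin 5, nbT k v = none ∧ (p.2 : Fin 5 → ℝ) v = 0) ∧ ∀ t' k', (q.1 : ρ) ≠ rc t' k') := by
  obtain ⟨⟨i, hi⟩, ⟨x, hx⟩⟩ := p
  obtain ⟨⟨j, hj⟩, ⟨y, hy⟩⟩ := q
  obtain ⟨v, _, w, hw, hf, hxv, hyw, ho⟩ := hr
  simp only at hp hw hf hxv hyw ho ⊢
  rw [hp] at hf ho
  rcases h.sat t k v j hj w hw hf with ⟨h1, h2⟩ | ⟨u, k', h1, h2⟩ | ⟨h1, h2⟩
  · left
    refine ⟨h1, ?_⟩
    rw [h1, h2] at ho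
    rw [h2] at hyw
    funext l
    by_cases hl : l = v
    · rw [hl, hxv, hyw]
    · exact (eq_of_map_eq ho (h.ods t k v l hl)).symm
  · right; left
    refine ⟨v, u, k', w, h1, h2, hxv, hyw, ?_⟩
    intro l hl
    rw [h2, (h.hnum t k v u k' w h1).2, List.map_map] at ho
    exact (List.map_inj_left.mp ho) l (h.ods t k v l hl)
  · right; right
    exact ⟨⟨v, h1, hxv⟩, h2⟩

theorem nb_none : ∀ (k : Fin 6) (v : Fin 5), nbT k v = none → v = 0 ∧ (k = 0 ∨ k = 1 ∨ k = 2) := by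
  decide

theorem cA_none {k : Fin 6} {v : Fin 5} (h : nbT k v = none) {x : Fin 5 → ℝ} (hx : x v = 0) :
    cA k x = 0 := by
  obtain ⟨rfl, rfl | rfl | rfl⟩ := nb_none k v h <;> exact hx

theorem KH.mem_univ' (h : KH lab num od S rc) {i : S} {t : Bool} {k : Fin 6}
    (hi : (i : ρ) = rc t k) (x : Dl (lab i)) :
    (x : Fin 5 → ℝ) ∈ Dl (Finset.univ : Finset (Fin 5)) := by
  obtain ⟨x, hx⟩ := x
  rw [hi, h.hlab] at hx
  exact hx

theorem Rg_symm {p q : Z lab S} (hr : Rg lab num od S p q) : Rg lab num od S q p := by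
  obtain ⟨v, hv, w, hw, hf, hxv, hyw, ho⟩ := hr
  exact ⟨w, hw, v, hv, hf.symm, hyw, hxv, ho.symm⟩

/-- A function given by the cuts on the twelve simplices descends. -/
theorem KH.PsiZ_rel (h : KH lab num od S rc) (p q : Z lab S) (hr : Rg lab num od S p q) :
    PsiZ rc p = PsiZ rc q := by
  have key : ∀ p q : Z lab S, Rg lab num od S p q → (∃ t k, (p.1 : ρ) = rc t k) →
      PsiZ rc p = PsiZ rc q := by
    rintro ⟨i, x⟩ ⟨j, y⟩ hr ⟨t, k, hp⟩
    simp only at hp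
    rw [h.PsiZ_eq t k i hp x]
    rcases h.rg_cases hr hp with ⟨h1, h2⟩ | ⟨v, u, k', w, h1, h2, h3, h4, h5⟩ | ⟨⟨v, h1, h2⟩, h3⟩
    · simp only at h1 h2
      rw [h.PsiZ_eq t k j h1 y, h2]
    · simp only at h2 h3 h4 h5
      rw [h.PsiZ_eq (xor t u) k' j h2 y]
      exact (psi_glue h1 (h.mem_univ' hp x) (h.mem_univ' h2 y) h3 h4 h5).symm
    · simp only at h2 h3
      unfold psi
      rw [cA_none h1 h2, if_neg (lt_irrefl _)]
      unfold PsiZ
      rw [dif_neg]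
      rintro ⟨⟨t', k'⟩, h4⟩
      exact h3 t' k' h4
  by_cases hp : ∃ t k, (p.1 : ρ) = rc t k
  · exact key p q hr hp
  · by_cases hq : ∃ t k, (q.1 : ρ) = rc t k
    · exact (key q p (Rg_symm hr) hq).symm
    · unfold PsiZ
      rw [dif_neg, dif_neg]
      · rintro ⟨⟨t', k'⟩, h4⟩; exact hq ⟨t', k', h4⟩
      · rintro ⟨⟨t', k'⟩, h4⟩; exact hp ⟨t', k', h4⟩

/-- The inverse of `iota0` (with value `none` outside the open solid part). -/
noncomputable def KH.PsiX (h : KH lab num od S rc) :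
    X lab num od S → Option ((Fin 2 → ℝ) × (Fin 2 → ℝ)) :=
  Quot.lift (PsiZ rc) h.PsiZ_rel

theorem KH.PsiX_pt (h : KH lab num od S rc) (t : Bool) (k : Fin 6) {x : Fin 5 → ℝ}
    (hx : x ∈ Dl (lab (rc t k))) :
    h.PsiX (pt lab num od (rc t k) (h.mem t k) x hx) = psi t k x :=
  h.PsiZ_eq t k ⟨rc t k, h.mem t k⟩ rfl ⟨x, hx⟩

theorem KH.PsiX_kap (h : KH lab num od S rc) (t : Bool) {a b c d : ℝ} (h0 : 0 < a) (h1 : a ≤ b)
    (h2 : b ≤ 1) (h3 : 0 ≤ c) (h4 : c ≤ d) (h5 : d ≤ 1) :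
    h.PsiX (h.kap t a b c d) = some (fr (XY t c d), Pq (2 * (1 - a)) (2 * (1 - b))) := by
  obtain ⟨k, hk, e⟩ := h.kap_cases t h0.le h1 h2 h3 h4 h5
  rw [e, h.Kp_eq (h.mem_Dl (cut_mem hk)), h.PsiX_pt]
  unfold psi
  obtain ⟨e1, e2, e3, e4⟩ := c_cut k a b c d
  rw [e1, e2, e3, e4, if_pos h0]

theorem KH.iota0_kap (h : KH lab num od S rc) (x p : Fin 2 → ℝ) :
    ∃ (t : Bool) (c d : ℝ), 0 ≤ c ∧ c ≤ d ∧ d ≤ 1 ∧ XY t c d = fr x ∧
      h.iota0 (x, p) = h.kap t (1 - hR p / 2) (1 - hW p / 2) c d := by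
  have hm := fr_mem x
  unfold KH.iota0
  simp only
  rcases lt_or_ge (fr x 0) (fr x 1) with e | e
  · refine ⟨true, 1 - fr x 1, 1 - fr x 0, ?_, ?_, ?_, ?_, h.kx_lt _ _ e⟩
    · linarith [(hm 1).2]
    · linarith
    · linarith [(hm 0).1]
    · obtain ⟨e0, e1⟩ := XY_true (1 - fr x 1) (1 - fr x 0)
      refine ext2 ?_ ?_
      · rw [e0]; ring
      · rw [e1]; ring
  · refine ⟨false, 1 - fr x 0, 1 - fr x 1, ?_, ?_, ?_, ?_, h.kx_ge _ _ e⟩
    · linarith [(hm 0).2]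
    · linarith
    · linarith [(hm 1).1]
    · obtain ⟨e0, e1⟩ := XY_false (1 - fr x 0) (1 - fr x 1)
      refine ext2 ?_ ?_
      · rw [e0]; ring
      · rw [e1]; ring

theorem KH.PsiX_iota0 (h : KH lab num od S rc) (x : Fin 2 → ℝ) {p : Fin 2 → ℝ}
    (hp : hR p < 2) : h.PsiX (h.iota0 (x, p)) = some (fr x, p) := by
  obtain ⟨t, c, d, h1, h2, h3, h4, h5⟩ := h.iota0_kap x p
  have := hR_nonneg p
  have := hW_nonneg p
  have := hW_le p
  rw [h5, h.PsiX_kap t (by linarith) (by linarith) (by linarith) h1 h2 h3, h4, fr_fr]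
  have e1 : 2 * (1 - (1 - hR p / 2)) = hR p := by ring
  have e2 : 2 * (1 - (1 - hW p / 2)) = hW p := by ring
  rw [e1, e2, Pq_hW]

theorem hR_sq {p : Fin 2 → ℝ} (hp : p ∈ PL55.sq) : hR p ≤ 1 := hR_le.mpr hp

/-- Injectivity modulo the lattice. -/
theorem KH.i1 (h : KH lab num od S rc) : ∀ x y, ∀ p ∈ PL55.sq, ∀ q ∈ PL55.sq,
    (h.iota0 (x, p) = h.iota0 (y, q) ↔ p = q ∧ ∃ m : Fin 2 → ℤ, ∀ i, y i = x i + m i) := by
  intro x y p hp q hq
  have hp1 := hR_sq hp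
  have hq1 := hR_sq hq
  constructor
  · intro e
    have := congrArg h.PsiX e
    rw [h.PsiX_iota0 x (by linarith), h.PsiX_iota0 y (by linarith)] at this
    simp only [Option.some.injEq, Prod.mk.injEq] at this
    exact ⟨this.2, fr_eq_iff.mp this.1⟩
  · rintro ⟨rfl, hm⟩
    exact h.iota0_eq_of (fr_eq_iff.mpr hm) p

theorem KH.psi_some (h : KH lab num od S rc) {p : Z lab S} {z : (Fin 2 → ℝ) × (Fin 2 → ℝ)}
    (hz : PsiZ rc p = some z) : ∃ t k, (p.1 : ρ) = rc t k ∧ psi t k p.2 = some z := by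
  by_cases hp : ∃ t k, (p.1 : ρ) = rc t k
  · obtain ⟨t, k, hp⟩ := hp
    refine ⟨t, k, hp, ?_⟩
    rw [← h.PsiZ_eq t k p.1 hp p.2]
    exact hz
  · unfold PsiZ at hz
    rw [dif_neg] at hz
    · cases hz
    · rintro ⟨⟨t', k'⟩, h4⟩; exact hp ⟨t', k', h4⟩

/-- The image of the open square bundle in the disjoint union. -/
theorem KH.preimage_open (h : KH lab num od S rc) (p : Z lab S) :
    (Quot.mk _ p : X lab num od S) ∈ h.iota0 '' {z | ∀ i, |z.2 i| < 1} ↔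
      ∃ t k, (p.1 : ρ) = rc t k ∧ 1 / 2 < cA k p.2 := by
  constructor
  · rintro ⟨⟨x, q⟩, hq, e⟩
    have hq1 : hR q < 1 := hR_lt.mpr hq
    have h1 := h.PsiX_iota0 x (p := q) (by linarith)
    rw [e] at h1
    obtain ⟨t, k, hp, h2⟩ := h.psi_some (p := p) h1
    refine ⟨t, k, hp, ?_⟩
    unfold psi at h2
    split_ifs at h2 with h3
    simp only [Option.some.injEq, Prod.mk.injEq] at h2
    obtain ⟨g0, g1, g2, _⟩ := c_bounds (h.mem_univ' hp p.2) k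
    have h4 := hR_Pq (r := 2 * (1 - cA k p.2)) (w := 2 * (1 - cB k p.2)) (by linarith)
      (by linarith)
    rw [h2.2] at h4
    linarith
  · rintro ⟨t, k, hp, h1⟩
    obtain ⟨⟨i, hi⟩, ⟨x, hx⟩⟩ := p
    simp only at hp h1
    subst hp
    obtain ⟨g0, g1, g2, _⟩ := c_bounds (h.mem_Dl' hx) k
    refine ⟨_, ?_, (h.pt_iota t k hx).symm⟩
    show ∀ i, |Pq (2 * (1 - cA k x)) (2 * (1 - cB k x)) i| < 1
    rw [← hR_lt, hR_Pq (by linarith) (by linarith)]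
    linarith

theorem cA_continuous (k : Fin 6) : Continuous (cA k) := by
  fin_cases k <;> show Continuous (fun x : Fin 5 → ℝ => _) <;> simp only [cA] <;> fun_prop

/-- The image of the open square bundle is open. -/
theorem KH.i3 (h : KH lab num od S rc) : IsOpen (h.iota0 '' {z | ∀ i, |z.2 i| < 1}) := by
  have key : IsOpen ((Quot.mk (Rg lab num od S)) ⁻¹'
      (h.iota0 '' {z | ∀ i, |z.2 i| < 1} : Set (X lab num od S))) := by
    rw [isOpen_sigma_iff]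
    intro i
    by_cases hi : ∃ t k, (i : ρ) = rc t k
    · obtain ⟨t, k, hi⟩ := hi
      have e : (Sigma.mk i ⁻¹' ((Quot.mk (Rg lab num od S)) ⁻¹'
          (h.iota0 '' {z | ∀ i, |z.2 i| < 1} : Set (X lab num od S)))) =
          {x : Dl (lab i) | 1 / 2 < cA k x} := by
        ext x
        refine (h.preimage_open (⟨i, x⟩ : Z lab S)).trans ?_
        constructor
        · rintro ⟨t', k', h1, h2⟩
          obtain ⟨_, rfl⟩ := h.inj _ _ _ _ (hi.symm.trans h1)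
          exact h2
        · intro h1
          exact ⟨t, k, hi, h1⟩
      rw [e]
      exact isOpen_lt continuous_const ((cA_continuous k).comp continuous_subtype_val)
    · have e : (Sigma.mk i ⁻¹' ((Quot.mk (Rg lab num od S)) ⁻¹'
          (h.iota0 '' {z | ∀ i, |z.2 i| < 1} : Set (X lab num od S)))) = ∅ := by
        ext x
        refine (h.preimage_open (⟨i, x⟩ : Z lab S)).trans ?_
        constructor
        · rintro ⟨t', k', h1, h2⟩
          exact (hi ⟨t', k', h1⟩).elim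
        · intro h1; exact h1.elim
      rw [e]
      exact isOpen_empty
  exact isOpen_coinduced.mpr key

/-- The core: row 0 has weight one. -/
theorem KH.i4 (h : KH lab num od S rc) : h.iota0 '' {z | z.2 = 0} =
    {y | ∃ (t : Bool) (k : Fin 6) (x : Fin 5 → ℝ) (hx : x ∈ Dl (lab (rc t k))), cA k x = 1 ∧
      y = pt lab num od (rc t k) (h.mem t k) x hx} := by
  have hP0 : Pq 0 0 = 0 := by
    unfold Pq
    rw [if_pos (by norm_num)]
    refine ext2 rfl ?_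
    show 8 * (0 : ℝ) - 0 = 0
    norm_num
  ext y
  constructor
  · rintro ⟨⟨x, p⟩, hp, rfl⟩
    have hp' : p = 0 := hp
    subst hp'
    obtain ⟨t, c, d, h1, h2, h3, h4, h5⟩ := h.iota0_kap x 0
    have e0 : hR (0 : Fin 2 → ℝ) = 0 := hR_eq_zero.mpr rfl
    rw [e0, hW_zero e0] at h5
    have e1 : (1 : ℝ) - 0 / 2 = 1 := by norm_num
    rw [e1] at h5
    obtain ⟨k, hk, e⟩ := h.kap_cases t zero_le_one (le_refl (1 : ℝ)) le_rfl h1 h2 h3
    refine ⟨t, k, cut k 1 1 c d, h.mem_Dl (cut_mem hk), (c_cut k 1 1 c d).1, ?_⟩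
    rw [h5, e, h.Kp_eq]
  · rintro ⟨t, k, x, hx, h1, rfl⟩
    obtain ⟨g0, g1, g2, _⟩ := c_bounds (h.mem_Dl' hx) k
    refine ⟨_, ?_, (h.pt_iota t k hx).symm⟩
    show Pq (2 * (1 - cA k x)) (2 * (1 - cB k x)) = 0
    have h2 : cB k x = 1 := by linarith
    rw [h1, h2, sub_self, mul_zero, hP0]

end

end MP55I
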